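import Mathlib

open Finset

namespace Pool.Agent.Results.MP_18736b_co.LocalCircumference

variable {V : Type*}

/-! ### weights -/

/-- `w s p = s / C(p-1, s-1)`, which is `p / C(p, s)` for `p ≥ s`. -/
noncomputable def w (s p : ℕ) : ℚ := (s : ℚ) / ((p - 1).choose (s - 1) : ℚ)

lemma choose_pred_lt {s p q : ℕ} (hs : 2 ≤ s) (hp : s ≤ p) (hpq : p < q) :
    (p - 1).choose (s - 1) < (q - 1).choose (s - 1) := by
  obtain ⟨a, rfl⟩ : ∃ a, p = a + 1 := ⟨p - 1, by omega⟩
  obtain ⟨b, rfl⟩ : ∃ b, q = b + 1 := ⟨q - 1, by omega⟩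
  obtain ⟨c, rfl⟩ : ∃ c, s = c + 2 := ⟨s - 2, by omega⟩
  simp only [Nat.add_sub_cancel]
  have h1 : (a + 1).choose (c + 2 - 1) ≤ b.choose (c + 2 - 1) := Nat.choose_le_choose _ (by omega)
  have h2 : a.choose (c + 1) < (a + 1).choose (c + 1) := by
    rw [Nat.choose_succ_succ']
    have : 0 < a.choose c := Nat.choose_pos (by omega)
    omega
  have h3 : c + 2 - 1 = c + 1 := by omega
  rw [h3] at h1 ⊢
  omega

lemma choose_pred_pos {s p : ℕ} (hs : 1 ≤ s) (hp : s ≤ p) : 0 < (p - 1).choose (s - 1) :=
  Nat.choose_pos (by omega)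

lemma w_lt {s p q : ℕ} (hs : 2 ≤ s) (hp : s ≤ p) (hpq : p < q) : w s q < w s p := by
  unfold w
  have h1 := choose_pred_lt hs hp hpq
  have h2 := choose_pred_pos (s := s) (p := p) (by omega) hp
  have h2' : (0 : ℚ) < ((p - 1).choose (s - 1) : ℚ) := by exact_mod_cast h2
  have h1' : ((p - 1).choose (s - 1) : ℚ) < ((q - 1).choose (s - 1) : ℚ) := by exact_mod_cast h1
  have h3 : (0 : ℚ) < (s : ℚ) := by exact_mod_cast (by omega : 0 < s)
  exact div_lt_div_of_pos_left h3 h2' h1'

lemma w_le {s p q : ℕ} (hs : 2 ≤ s) (hp : s ≤ p) (hpq : p ≤ q) : w s q ≤ w s p := by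
  rcases hpq.lt_or_eq with h | h
  · exact (w_lt hs hp h).le
  · rw [h]

lemma w_nonneg (s p : ℕ) : 0 ≤ w s p := by
  unfold w; positivity

/-- `(r+1) C(d,r) ≤ C(2d,r)`. -/
lemma choose_two_mul (d r : ℕ) : (r + 1) * d.choose r ≤ (2 * d).choose r := by
  rw [two_mul, Nat.add_choose_eq]
  have h : ∀ ij ∈ Finset.HasAntidiagonal.antidiagonal r, d.choose r ≤ d.choose ij.1 * d.choose ij.2 := by
    intro ij hij
    rw [Finset.HasAntidiagonal.mem_antidiagonal] at hij
    by_cases hd : r ≤ d
    · have h1 := Nat.choose_mul (n := d) (k := r) (s := ij.1) (by omega)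
      have h2 : 0 < r.choose ij.1 := Nat.choose_pos (by omega)
      have h3 : (d - ij.1).choose (r - ij.1) ≤ d.choose ij.2 := by
        have : r - ij.1 = ij.2 := by omega
        rw [this]
        exact Nat.choose_le_choose _ (by omega)
      calc d.choose r ≤ d.choose r * r.choose ij.1 := Nat.le_mul_of_pos_right _ h2
        _ = d.choose ij.1 * (d - ij.1).choose (r - ij.1) := h1
        _ ≤ _ := Nat.mul_le_mul_left _ h3
    · rw [Nat.choose_eq_zero_of_lt (by omega)]; exact Nat.zero_le _
  have h4 := Finset.sum_le_sum h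
  rw [Finset.sum_const, Finset.Nat.card_antidiagonal] at h4
  simpa using h4

/-! ### paths as lists -/

/-- a path inside `S`, as a list of distinct vertices -/
def PL (G : SimpleGraph V) (S : Finset V) (l : List V) : Prop :=
  l.Nodup ∧ l.IsChain G.Adj ∧ ∀ x ∈ l, x ∈ S

/-- the largest number of vertices of a path inside `S` through all vertices of `T` -/
noncomputable def pl (G : SimpleGraph V) (S T : Finset V) : ℕ :=
  sSup {k | ∃ l, PL G S l ∧ l.length = k ∧ ∀ x ∈ T, x ∈ l}

lemma PL.length_le {G : SimpleGraph V} {S : Finset V} {l : List V} (h : PL G S l) :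
    l.length ≤ S.card := by
  classical
  rw [← List.toFinset_card_of_nodup h.1]
  exact Finset.card_le_card (fun x hx => h.2.2 x (by simpa using hx))

lemma bdd (G : SimpleGraph V) (S T : Finset V) :
    BddAbove {k | ∃ l, PL G S l ∧ l.length = k ∧ ∀ x ∈ T, x ∈ l} := by
  refine ⟨S.card, ?_⟩
  rintro k ⟨l, hl, rfl, -⟩
  exact hl.length_le

lemma le_pl {G : SimpleGraph V} {S T : Finset V} {l : List V} (h : PL G S l)
    (hT : ∀ x ∈ T, x ∈ l) : l.length ≤ pl G S T :=
  le_csSup (bdd G S T) ⟨l, h, rfl, hT⟩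

lemma chain_of_clique {G : SimpleGraph V} {l : List V} (hn : l.Nodup)
    (hc : G.IsClique {x | x ∈ l}) : l.IsChain G.Adj := by
  induction l with
  | nil => simp
  | cons a l ih =>
    rw [List.isChain_cons]
    rw [List.nodup_cons] at hn
    refine ⟨?_, ih hn.2 (hc.subset (fun x (hx : x ∈ l) => List.mem_cons_of_mem _ hx))⟩
    intro y hy
    have hy' : y ∈ l := List.mem_of_mem_head? hy
    exact hc (by simp) (List.mem_cons_of_mem _ hy') (fun h => hn.1 (h ▸ hy'))

lemma PL_toList {G : SimpleGraph V} {S T : Finset V} (hTS : T ⊆ S) (hc : G.IsClique (T : Set V)) :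
    PL G S T.toList := by
  refine ⟨T.nodup_toList, chain_of_clique T.nodup_toList ?_, ?_⟩
  · refine hc.subset ?_
    intro x hx
    simpa using hx
  · intro x hx
    exact hTS (by simpa using hx)

lemma card_le_pl {G : SimpleGraph V} {S T : Finset V} (hTS : T ⊆ S)
    (hc : G.IsClique (T : Set V)) : T.card ≤ pl G S T := by
  have := le_pl (T := T) (PL_toList hTS hc) (fun x hx => by simpa using hx)
  simpa using this

lemma pl_spec {G : SimpleGraph V} {S T : Finset V} (hTS : T ⊆ S)
    (hc : G.IsClique (T : Set V)) :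
    ∃ l, PL G S l ∧ l.length = pl G S T ∧ ∀ x ∈ T, x ∈ l := by
  have hne : {k | ∃ l, PL G S l ∧ l.length = k ∧ ∀ x ∈ T, x ∈ l}.Nonempty :=
    ⟨_, T.toList, PL_toList hTS hc, rfl, fun x hx => by simpa using hx⟩
  exact Nat.sSup_mem hne (bdd G S T)

lemma pl_mono {G : SimpleGraph V} {S S' T : Finset V} (hSS : S' ⊆ S) (hTS : T ⊆ S')
    (hc : G.IsClique (T : Set V)) : pl G S' T ≤ pl G S T := by
  obtain ⟨l, hl, hlen, hT⟩ := pl_spec hTS hc
  rw [← hlen]
  exact le_pl ⟨hl.1, hl.2.1, fun x hx => hSS (hl.2.2 x hx)⟩ hT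

open Classical in
/-- cliques on `s` vertices inside `S` -/
noncomputable def KS (G : SimpleGraph V) (s : ℕ) (S : Finset V) : Finset (Finset V) :=
  (S.powersetCard s).filter (fun T => G.IsClique (T : Set V))

lemma mem_KS {G : SimpleGraph V} {s : ℕ} {S T : Finset V} :
    T ∈ KS G s S ↔ T ⊆ S ∧ T.card = s ∧ G.IsClique (T : Set V) := by
  classical
  simp [KS, Finset.mem_powersetCard, and_assoc]

lemma KS_subset (G : SimpleGraph V) (s : ℕ) (S : Finset V) : KS G s S ⊆ S.powersetCard s := by
  classical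
  exact Finset.filter_subset _ _

/-- structure in the case of equality -/
def Struct (G : SimpleGraph V) (s : ℕ) (S : Finset V) : Prop :=
  (∀ x ∈ S, ∀ y ∈ S, ∀ z ∈ S, G.Adj x y → G.Adj y z → x ≠ z → G.Adj x z) ∧
  (∀ x ∈ S, ∃ T ∈ KS G s S, x ∈ T)

/-- the path theorem for `S` -/
def PT (G : SimpleGraph V) (s : ℕ) (S : Finset V) : Prop :=
  (∑ T ∈ KS G s S, w s (pl G S T) ≤ S.card) ∧
  ((S.card : ℚ) ≤ ∑ T ∈ KS G s S, w s (pl G S T) → Struct G s S)

/-- in a transitive graph a path through `x` stays in the closed neighbourhood of `x`. -/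
lemma pl_le_of_trans {G : SimpleGraph V} {S T : Finset V}
    (htr : ∀ x ∈ S, ∀ y ∈ S, ∀ z ∈ S, G.Adj x y → G.Adj y z → x ≠ z → G.Adj x z)
    (hTS : T ⊆ S) (hc : G.IsClique (T : Set V)) {x : V} (hx : x ∈ T) (Q : Finset V)
    (hQ : ∀ y ∈ S, (y = x ∨ G.Adj x y) → y ∈ Q) : pl G S T ≤ Q.card := by
  classical
  obtain ⟨l, hl, hlen, hT⟩ := pl_spec hTS hc
  rw [← hlen]
  have hpair : l.Pairwise (fun a b => a = b ∨ G.Adj a b) := by
    -- transitivity along chain
    have key : ∀ l : List V, l.Nodup → l.IsChain G.Adj → (∀ x ∈ l, x ∈ S) →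
        l.Pairwise (fun a b => a = b ∨ G.Adj a b) := by
      intro l
      induction l with
      | nil => intro _ _ _; exact List.Pairwise.nil
      | cons a l ih =>
        intro h1 h2 h3
        rw [List.isChain_cons] at h2
        rw [List.nodup_cons] at h1
        have h4 := ih h1.2 h2.2 (fun x hx => h3 x (List.mem_cons_of_mem _ hx))
        refine List.Pairwise.cons ?_ h4
        intro y hy
        right
        cases l with
        | nil => simp at hy
        | cons b l =>
          have hab : G.Adj a b := h2.1 b (by simp)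
          rw [List.mem_cons] at hy
          rcases hy with rfl | hy
          · exact hab
          · have h5 := (List.pairwise_cons.1 h4).1 y hy
            have hay : a ≠ y := by
              rintro rfl
              exact h1.1 (List.mem_cons_of_mem _ hy)
            rcases h5 with rfl | h5
            · exact hab
            · exact htr a (h3 a (by simp)) b (h3 b (by simp)) y
                (h3 y (by simp [hy])) hab h5 hay
    exact key l hl.1 hl.2.1 hl.2.2
  rw [← List.toFinset_card_of_nodup hl.1]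
  apply Finset.card_le_card
  intro y hy
  rw [List.mem_toFinset] at hy
  refine hQ y (hl.2.2 y hy) ?_
  have hxl := hT x hx
  by_cases hxy : y = x
  · exact Or.inl hxy
  · right
    have hsym : ∀ ⦃a b : V⦄, (a = b ∨ G.Adj a b) → (b = a ∨ G.Adj b a) := by
      rintro a b (h | h)
      · exact Or.inl h.symm
      · exact Or.inr h.symm
    have : Std.Symm (fun a b : V => a = b ∨ G.Adj a b) := ⟨fun a b h => hsym h⟩
    have := List.Pairwise.forall_of_forall (R := fun a b : V => a = b ∨ G.Adj a b)
      (fun a _ => Or.inl rfl) hpair hxl hy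
    rcases this with h | h
    · exact absurd h.symm hxy
    · exact h

/-! ### removing a vertex of small degree -/

lemma KS_erase_split {G : SimpleGraph V} {s : ℕ} {S : Finset V} [DecidableEq V] {v : V} :
    KS G s S = KS G s (S.erase v) ∪ (KS G s S).filter (fun T => v ∈ T) := by
  ext T
  simp only [Finset.mem_union, Finset.mem_filter, mem_KS]
  constructor
  · rintro ⟨h1, h2, h3⟩
    by_cases hv : v ∈ T
    · exact Or.inr ⟨⟨h1, h2, h3⟩, hv⟩
    · exact Or.inl ⟨fun x hx => Finset.mem_erase.2 ⟨fun h => hv (h ▸ hx), h1 hx⟩, h2, h3⟩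
  · rintro (⟨h1, h2, h3⟩ | ⟨h, -⟩)
    · exact ⟨h1.trans (Finset.erase_subset _ _), h2, h3⟩
    · exact h

lemma sum_KS_split {G : SimpleGraph V} {s : ℕ} {S : Finset V} [DecidableEq V] {v : V}
    (f : Finset V → ℚ) :
    ∑ T ∈ KS G s S, f T = ∑ T ∈ KS G s (S.erase v), f T +
      ∑ T ∈ (KS G s S).filter (fun T => v ∈ T), f T := by
  rw [← Finset.sum_union, ← KS_erase_split]
  rw [Finset.disjoint_left]
  intro T h1 h2
  rw [mem_KS] at h1
  exact absurd (h1.1 (Finset.mem_filter.1 h2).2) (Finset.notMem_erase _ _)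

open Classical in
lemma card_through_le {G : SimpleGraph V} {s : ℕ} {S : Finset V} {v : V} :
    ((KS G s S).filter (fun T => v ∈ T)).card ≤ (S.filter (fun y => G.Adj v y)).card.choose (s - 1)
    := by
  rw [← Finset.card_powersetCard]
  apply Finset.card_le_card_of_injOn (fun T => T.erase v)
  · intro T hT
    have hT := Finset.mem_coe.1 hT
    rw [Finset.mem_filter, mem_KS] at hT
    obtain ⟨⟨h1, h2, h3⟩, h4⟩ := hT
    rw [Finset.mem_coe, Finset.mem_powersetCard]
    refine ⟨?_, by rw [Finset.card_erase_of_mem h4, h2]⟩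
    intro y hy
    rw [Finset.mem_erase] at hy
    rw [Finset.mem_filter]
    exact ⟨h1 hy.2, h3 h4 hy.2 (Ne.symm hy.1)⟩
  · intro T hT T' hT' h
    have hT := (Finset.mem_filter.1 (Finset.mem_coe.1 hT)).2
    have hT' := (Finset.mem_filter.1 (Finset.mem_coe.1 hT')).2
    have h' : T.erase v = T'.erase v := h
    rw [← Finset.insert_erase hT, h', Finset.insert_erase hT']

lemma card_mul_w_le {s d k N : ℕ} (hs : 2 ≤ s) (hsk : s ≤ k) (hd : 2 * d ≤ k - 1)
    (hN : N ≤ d.choose (s - 1)) : (N : ℚ) * w s k ≤ 1 := by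
  unfold w
  have hpos := choose_pred_pos (s := s) (p := k) (by omega) hsk
  have hpos' : (0 : ℚ) < ((k - 1).choose (s - 1) : ℚ) := by exact_mod_cast hpos
  rw [mul_div_assoc', div_le_one hpos']
  have h1 := choose_two_mul d (s - 1)
  have h2 : (2 * d).choose (s - 1) ≤ (k - 1).choose (s - 1) := Nat.choose_le_choose _ hd
  have h3 : s - 1 + 1 = s := by omega
  rw [h3] at h1
  have h4 : N * s ≤ (k - 1).choose (s - 1) := by
    calc N * s ≤ d.choose (s - 1) * s := Nat.mul_le_mul_right _ hN
      _ = s * d.choose (s - 1) := by ring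
      _ ≤ _ := h1.trans h2
  exact_mod_cast h4

open Classical in
lemma removal {G : SimpleGraph V} {s : ℕ} (hs : 2 ≤ s) {S : Finset V} {v : V} (hv : v ∈ S)
    {l : List V} (hl : PL G S l) (hvl : v ∈ l) (hN : ∀ y ∈ S, G.Adj v y → y ∈ l)
    (hdeg : 2 * (S.filter (fun y => G.Adj v y)).card ≤ l.length - 1)
    (ih : PT G s (S.erase v)) : PT G s S := by
  have hterm : ∀ T ∈ (KS G s S).filter (fun T => v ∈ T), w s (pl G S T) ≤ w s l.length ∧
      s ≤ l.length := by
    intro T hT
    rw [Finset.mem_filter, mem_KS] at hT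
    obtain ⟨⟨h1, h2, h3⟩, h4⟩ := hT
    have hTl : ∀ x ∈ T, x ∈ l := by
      intro x hx
      by_cases hxv : x = v
      · exact hxv ▸ hvl
      · exact hN x (h1 hx) (h3 h4 hx (Ne.symm hxv))
    have hsl : s ≤ l.length := by
      rw [← h2, ← List.toFinset_card_of_nodup hl.1]
      exact Finset.card_le_card (fun x hx => by simpa using hTl x hx)
    exact ⟨w_le hs hsl (le_pl hl hTl), hsl⟩
  have hthrough : ∑ T ∈ (KS G s S).filter (fun T => v ∈ T), w s (pl G S T) ≤ 1 := by
    by_cases hne : ((KS G s S).filter (fun T => v ∈ T)).Nonempty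
    · obtain ⟨T0, hT0⟩ := hne
      have hsl := (hterm T0 hT0).2
      calc ∑ T ∈ (KS G s S).filter (fun T => v ∈ T), w s (pl G S T)
          ≤ ∑ T ∈ (KS G s S).filter (fun T => v ∈ T), w s l.length :=
            Finset.sum_le_sum (fun T hT => (hterm T hT).1)
        _ = (((KS G s S).filter (fun T => v ∈ T)).card : ℚ) * w s l.length := by
            rw [Finset.sum_const, nsmul_eq_mul]
        _ ≤ 1 := card_mul_w_le hs hsl hdeg card_through_le
    · rw [Finset.not_nonempty_iff_eq_empty] at hne
      rw [hne, Finset.sum_empty]; norm_num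
  have hmono : ∀ T ∈ KS G s (S.erase v), w s (pl G S T) ≤ w s (pl G (S.erase v) T) := by
    intro T hT
    rw [mem_KS] at hT
    refine w_le hs ?_ (pl_mono (Finset.erase_subset _ _) hT.1 hT.2.2)
    have := card_le_pl hT.1 hT.2.2
    omega
  have hcard : ((S.erase v).card : ℚ) = S.card - 1 := by
    rw [Finset.card_erase_of_mem hv]
    have : 1 ≤ S.card := Finset.card_pos.2 ⟨v, hv⟩
    push_cast [this]
    ring
  constructor
  · rw [sum_KS_split (v := v)]
    have h1 := Finset.sum_le_sum hmono
    have h2 := ih.1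
    rw [hcard] at h2
    linarith
  · intro hge
    exfalso
    rw [sum_KS_split (v := v)] at hge
    have h1 := Finset.sum_le_sum hmono
    have h2 := ih.1
    have h3 := ih.2
    rw [hcard] at h2 h3
    have hstr : Struct G s (S.erase v) := h3 (by linarith)
    -- equality termwise
    have heq : ∑ T ∈ KS G s (S.erase v), w s (pl G S T) =
        ∑ T ∈ KS G s (S.erase v), w s (pl G (S.erase v) T) := by linarith
    have hterm' := (Finset.sum_eq_sum_iff_of_le hmono).1 heq
    have hpos : 0 < ∑ T ∈ (KS G s S).filter (fun T => v ∈ T), w s (pl G S T) := by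
      have : (0 : ℚ) < 1 := by norm_num
      linarith
    obtain ⟨T1, hT1, -⟩ := Finset.exists_ne_zero_of_sum_ne_zero hpos.ne'
    rw [Finset.mem_filter, mem_KS] at hT1
    obtain ⟨⟨hT1S, hT1c, hT1q⟩, hvT1⟩ := hT1
    -- a neighbour of v
    obtain ⟨x, hx, hxv⟩ : ∃ x ∈ T1, x ≠ v := by
      apply Finset.exists_mem_ne (by omega) v
    have hvx : G.Adj v x := hT1q hvT1 hx (Ne.symm hxv)
    have hxS : x ∈ S.erase v := Finset.mem_erase.2 ⟨hxv, hT1S hx⟩
    obtain ⟨T, hT, hxT⟩ := hstr.2 x hxS
    have hT' := hT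
    rw [mem_KS] at hT
    -- Q = closed neighbourhood of x in S - v
    set Q := (S.erase v).filter (fun y => y = x ∨ G.Adj x y) with hQ
    have hup : pl G (S.erase v) T ≤ Q.card :=
      pl_le_of_trans hstr.1 hT.1 hT.2.2 hxT Q
        (fun y hy h => Finset.mem_filter.2 ⟨hy, h⟩)
    have hQclique : G.IsClique (Q : Set V) := by
      intro a ha b hb hab
      have ha := Finset.mem_filter.1 (Finset.mem_coe.1 ha)
      have hb := Finset.mem_filter.1 (Finset.mem_coe.1 hb)
      rcases ha.2 with h | h
      · subst h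
        rcases hb.2 with h' | h'
        · exact absurd h'.symm hab
        · exact h'
      · rcases hb.2 with h' | h'
        · subst h'; exact h.symm
        · exact hstr.1 a ha.1 x hxS b hb.1 h.symm h' hab
    -- the path v, x, rest of Q
    have hxQ : x ∈ Q := Finset.mem_filter.2 ⟨hxS, Or.inl rfl⟩
    have hlow : Q.card + 1 ≤ pl G S T := by
      have hvQ : v ∉ Q := fun h => absurd (Finset.mem_filter.1 h).1 (Finset.notMem_erase _ _)
      have hxlist : (x :: (Q.erase x).toList).Nodup := by
        rw [List.nodup_cons]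
        exact ⟨by simp, Finset.nodup_toList _⟩
      have hmem : ∀ y, y ∈ (x :: (Q.erase x).toList) ↔ y ∈ Q := by
        intro y
        rw [List.mem_cons, Finset.mem_toList, Finset.mem_erase]
        constructor
        · rintro (h | h)
          · exact h ▸ hxQ
          · exact h.2
        · intro h
          by_cases hyx : y = x
          · exact Or.inl hyx
          · exact Or.inr ⟨hyx, h⟩
      have hPL : PL G S (v :: x :: (Q.erase x).toList) := by
        refine ⟨?_, ?_, ?_⟩
        · rw [List.nodup_cons]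
          exact ⟨fun h => hvQ ((hmem v).1 h), hxlist⟩
        · rw [List.isChain_cons]
          refine ⟨?_, chain_of_clique hxlist (hQclique.subset (fun y hy => (hmem y).1 hy))⟩
          intro y hy
          simp only [List.head?_cons, Option.mem_def, Option.some.injEq] at hy
          exact hy ▸ hvx
        · intro y hy
          rw [List.mem_cons] at hy
          rcases hy with h | h
          · exact h ▸ hv
          · exact Finset.mem_of_mem_erase (Finset.mem_filter.1 ((hmem y).1 h)).1
      have hTin : ∀ y ∈ T, y ∈ (v :: x :: (Q.erase x).toList) := by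
        intro y hy
        refine List.mem_cons_of_mem _ ((hmem y).2 (Finset.mem_filter.2 ⟨hT.1 hy, ?_⟩))
        by_cases hyx : y = x
        · exact Or.inl hyx
        · exact Or.inr (hT.2.2 hxT hy (Ne.symm hyx))
      have := le_pl hPL hTin
      rw [List.length_cons, List.length_cons, Finset.length_toList,
        Finset.card_erase_of_mem hxQ] at this
      have hQpos : 1 ≤ Q.card := Finset.card_pos.2 ⟨x, hxQ⟩
      omega
    have hlt : w s (pl G S T) < w s (pl G (S.erase v) T) := by
      refine w_lt hs ?_ (by omega)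
      have := card_le_pl hT.1 hT.2.2
      omega
    exact hlt.ne (hterm' T hT')

/-! ### splitting off a component with a Hamilton path through everything -/

lemma KS_comp_split [DecidableEq V] {G : SimpleGraph V} {s : ℕ} {S C : Finset V}
    (hCS : C ⊆ S) (hclosed : ∀ x ∈ C, ∀ y ∈ S, y ∉ C → ¬ G.Adj x y) :
    KS G s S = KS G s C ∪ KS G s (S \ C) := by
  ext T
  simp only [Finset.mem_union, mem_KS]
  constructor
  · rintro ⟨h1, h2, h3⟩
    by_cases h : ∃ x ∈ T, x ∈ C
    · obtain ⟨x, hxT, hxC⟩ := h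
      left
      refine ⟨fun y hy => ?_, h2, h3⟩
      by_contra hyC
      exact hclosed x hxC y (h1 hy) hyC (h3 hxT hy (fun h => hyC (h ▸ hxC)))
    · right
      push Not at h
      exact ⟨fun y hy => Finset.mem_sdiff.2 ⟨h1 hy, h y hy⟩, h2, h3⟩
  · rintro (⟨h1, h2, h3⟩ | ⟨h1, h2, h3⟩)
    · exact ⟨h1.trans hCS, h2, h3⟩
    · exact ⟨h1.trans Finset.sdiff_subset, h2, h3⟩

lemma sum_comp_split [DecidableEq V] {G : SimpleGraph V} {s : ℕ} (hs : 2 ≤ s) {S C : Finset V}
    (hCS : C ⊆ S) (hclosed : ∀ x ∈ C, ∀ y ∈ S, y ∉ C → ¬ G.Adj x y) (f : Finset V → ℚ) :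
    ∑ T ∈ KS G s S, f T = ∑ T ∈ KS G s C, f T + ∑ T ∈ KS G s (S \ C), f T := by
  rw [← Finset.sum_union, ← KS_comp_split hCS hclosed]
  rw [Finset.disjoint_left]
  intro T h1 h2
  rw [mem_KS] at h1 h2
  obtain ⟨x, hx⟩ : T.Nonempty := Finset.card_pos.1 (by omega)
  exact (Finset.mem_sdiff.1 (h2.1 hx)).2 (h1.1 hx)

lemma choose_mul_w {s k : ℕ} (hs : 1 ≤ s) (hsk : s ≤ k) :
    ((k.choose s : ℕ) : ℚ) * w s k = k := by
  unfold w
  have hpos := choose_pred_pos (s := s) (p := k) hs hsk
  have hpos' : ((k - 1).choose (s - 1) : ℚ) ≠ 0 := by exact_mod_cast hpos.ne'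
  rw [mul_div_assoc', div_eq_iff hpos']
  obtain ⟨a, rfl⟩ : ∃ a, k = a + 1 := ⟨k - 1, by omega⟩
  obtain ⟨c, rfl⟩ : ∃ c, s = c + 1 := ⟨s - 1, by omega⟩
  simp only [Nat.add_sub_cancel]
  have := Nat.add_one_mul_choose_eq a c
  have h : ((a + 1 : ℕ) : ℚ) * (a.choose c : ℚ) = ((a + 1).choose (c + 1) : ℚ) * ((c + 1 : ℕ) : ℚ) := by
    exact_mod_cast this
  exact h.symm

lemma comp_case [DecidableEq V] {G : SimpleGraph V} {s : ℕ} (hs : 2 ≤ s) {S C : Finset V}
    (hCS : C ⊆ S) (hCne : C.Nonempty) (hclosed : ∀ x ∈ C, ∀ y ∈ S, y ∉ C → ¬ G.Adj x y)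
    {l : List V} (hl : PL G S l) (hlen : l.length = C.card) (hCl : ∀ x ∈ C, x ∈ l)
    (ih : PT G s (S \ C)) : PT G s S := by
  have hterm : ∀ T ∈ KS G s C, w s (pl G S T) ≤ w s C.card ∧ s ≤ C.card := by
    intro T hT
    rw [mem_KS] at hT
    obtain ⟨h1, h2, h3⟩ := hT
    have hsl : s ≤ C.card := h2 ▸ Finset.card_le_card h1
    refine ⟨w_le hs hsl ?_, hsl⟩
    rw [← hlen]
    exact le_pl hl (fun x hx => hCl x (h1 hx))
  have hcardKS : (KS G s C).card ≤ C.card.choose s := by
    rw [← Finset.card_powersetCard]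
    exact Finset.card_le_card (KS_subset _ _ _)
  have hCpos : (0 : ℚ) < (C.card : ℚ) := by exact_mod_cast Finset.card_pos.2 hCne
  have hC1 : ∑ T ∈ KS G s C, w s (pl G S T) ≤ ((KS G s C).card : ℚ) * w s C.card := by
    rw [← nsmul_eq_mul, ← Finset.sum_const]
    exact Finset.sum_le_sum (fun T hT => (hterm T hT).1)
  have hC2 : ((KS G s C).card : ℚ) * w s C.card ≤ C.card := by
    by_cases hne : (KS G s C).Nonempty
    · obtain ⟨T0, hT0⟩ := hne
      have hsl := (hterm T0 hT0).2
      rw [← choose_mul_w (s := s) (k := C.card) (by omega) hsl]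
      exact mul_le_mul_of_nonneg_right (by exact_mod_cast hcardKS) (w_nonneg _ _)
    · rw [Finset.not_nonempty_iff_eq_empty] at hne
      rw [hne]; simp
  have hmono : ∀ T ∈ KS G s (S \ C), w s (pl G S T) ≤ w s (pl G (S \ C) T) := by
    intro T hT
    rw [mem_KS] at hT
    refine w_le hs ?_ (pl_mono Finset.sdiff_subset hT.1 hT.2.2)
    have := card_le_pl hT.1 hT.2.2
    omega
  have hcard : ((S \ C).card : ℚ) = S.card - C.card := by
    rw [Finset.card_sdiff_of_subset hCS]
    have : C.card ≤ S.card := Finset.card_le_card hCS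
    push_cast [this]
    ring
  have h1 := Finset.sum_le_sum hmono
  have h2 := ih.1
  have h3 := ih.2
  rw [hcard] at h2 h3
  constructor
  · rw [sum_comp_split hs hCS hclosed]
    linarith
  · intro hge
    rw [sum_comp_split hs hCS hclosed] at hge
    have hstr : Struct G s (S \ C) := h3 (by linarith)
    have hKC : (C.card : ℚ) ≤ ((KS G s C).card : ℚ) * w s C.card := by linarith
    have hne : (KS G s C).Nonempty := by
      by_contra hne
      rw [Finset.not_nonempty_iff_eq_empty] at hne
      rw [hne] at hKC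
      simp at hKC
      rw [hKC] at hCpos
      simp at hCpos
    obtain ⟨T0, hT0⟩ := hne
    have hsl := (hterm T0 hT0).2
    have hwpos : 0 < w s C.card := by
      unfold w
      have := choose_pred_pos (s := s) (p := C.card) (by omega) hsl
      have hs0 : 0 < s := by omega
      positivity
    have hcardeq : (KS G s C).card = C.card.choose s := by
      refine le_antisymm hcardKS ?_
      have h5 : ((C.card.choose s : ℕ) : ℚ) * w s C.card ≤ ((KS G s C).card : ℚ) * w s C.card := by
        rw [choose_mul_w (by omega) hsl]; exact hKC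
      have := le_of_mul_le_mul_right h5 hwpos
      exact_mod_cast this
    have hKSeq : KS G s C = C.powersetCard s := by
      apply Finset.eq_of_subset_of_card_le (KS_subset _ _ _)
      rw [Finset.card_powersetCard]
      exact hcardeq.ge
    have hCclique : G.IsClique (C : Set V) := by
      intro a ha b hb hab
      obtain ⟨T, hT1, hT2, hT3⟩ := Finset.exists_subsuperset_card_eq (s := {a, b}) (t := C) (n := s)
        (by intro z hz; simp at hz; rcases hz with h | h <;> subst h <;> assumption)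
        (by rw [Finset.card_pair hab]; exact hs) hsl
      have hTK : T ∈ KS G s C := by
        rw [hKSeq, Finset.mem_powersetCard]
        exact ⟨hT2, hT3⟩
      rw [mem_KS] at hTK
      exact hTK.2.2 (hT1 (by simp)) (hT1 (by simp)) hab
    have hsame : ∀ x ∈ S, ∀ y ∈ S, G.Adj x y → (x ∈ C ↔ y ∈ C) := by
      intro x hx y hy hxy
      constructor
      · intro hxC
        by_contra hyC
        exact hclosed x hxC y hy hyC hxy
      · intro hyC
        by_contra hxC
        exact hclosed y hyC x hx hxC hxy.symm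
    constructor
    · intro x hx y hy z hz hxy hyz hxz
      by_cases hxC : x ∈ C
      · have hyC := (hsame x hx y hy hxy).1 hxC
        have hzC := (hsame y hy z hz hyz).1 hyC
        exact hCclique hxC hzC hxz
      · have hyC : y ∉ C := fun h => hxC ((hsame x hx y hy hxy).2 h)
        have hzC : z ∉ C := fun h => hyC ((hsame y hy z hz hyz).2 h)
        exact hstr.1 x (Finset.mem_sdiff.2 ⟨hx, hxC⟩) y (Finset.mem_sdiff.2 ⟨hy, hyC⟩) z
          (Finset.mem_sdiff.2 ⟨hz, hzC⟩) hxy hyz hxz
    · intro x hx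
      by_cases hxC : x ∈ C
      · obtain ⟨T, hT1, hT2, hT3⟩ := Finset.exists_subsuperset_card_eq (s := {x}) (t := C) (n := s)
          (by simpa using hxC) (by simp; omega) hsl
        exact ⟨T, mem_KS.2 ⟨hT2.trans hCS, hT3, hCclique.subset hT2⟩, hT1 (by simp)⟩
      · obtain ⟨T, hT, hxT⟩ := hstr.2 x (Finset.mem_sdiff.2 ⟨hx, hxC⟩)
        rw [mem_KS] at hT
        exact ⟨T, mem_KS.2 ⟨hT.1.trans Finset.sdiff_subset, hT.2.1, hT.2.2⟩, hxT⟩

/-! ### the crossing argument -/

/-- rotating a cyclic list -/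
lemma rotate_PL {G : SimpleGraph V} {S : Finset V} {c1 c2 : List V} {x : V}
    (h : PL G S (c1 ++ x :: c2))
    (hcl : ∀ a ∈ (c1 ++ x :: c2).getLast?, ∀ b ∈ (c1 ++ x :: c2).head?, G.Adj a b) :
    PL G S ((x :: c2) ++ c1) := by
  obtain ⟨h1, h2, h3⟩ := h
  refine ⟨?_, ?_, ?_⟩
  · rw [List.nodup_append_comm]; exact h1
  · rw [List.isChain_append] at h2 ⊢
    refine ⟨h2.2.1, h2.1, ?_⟩
    intro a ha b hb
    apply hcl a _ b _
    · rw [List.getLast?_append]
      simp only [Option.mem_def] at ha ⊢
      rw [ha]; rfl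
    · rw [List.head?_append]
      simp only [Option.mem_def] at hb ⊢
      rw [hb]; rfl
  · intro y hy
    apply h3
    rw [List.mem_append] at hy ⊢
    exact hy.symm

/-- if a longest path closes up to a cyclic list, its vertex set is a component. -/
lemma closed_of_cyclic {G : SimpleGraph V} {S : Finset V} {c : List V} (h : PL G S c)
    (hcl : ∀ a ∈ c.getLast?, ∀ b ∈ c.head?, G.Adj a b)
    (hmax : ∀ l, PL G S l → l.length ≤ c.length) :
    ∀ x ∈ c, ∀ y ∈ S, y ∉ c → ¬ G.Adj x y := by
  intro x hx y hy hyc hxy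
  obtain ⟨c1, c2, rfl⟩ := List.append_of_mem hx
  have h1 := rotate_PL h hcl
  have h2 : PL G S (y :: ((x :: c2) ++ c1)) := by
    refine ⟨?_, ?_, ?_⟩
    · rw [List.nodup_cons]
      refine ⟨fun h => hyc ?_, h1.1⟩
      rw [List.mem_append] at h ⊢
      exact h.symm
    · rw [List.isChain_cons]
      refine ⟨?_, h1.2.1⟩
      intro z hz
      simp only [List.cons_append, List.head?_cons, Option.mem_def, Option.some.injEq] at hz
      exact hz ▸ hxy.symm
    · intro z hz
      rw [List.mem_cons] at hz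
      rcases hz with rfl | hz
      · exact hy
      · exact h1.2.2 z hz
  have h3 := hmax _ h2
  simp only [List.length_cons, List.length_append] at h3
  omega

/-- the crossing argument: large end degrees give a cyclic rearrangement. -/
lemma crossing [DecidableEq V] {G : SimpleGraph V} {S : Finset V} {l1 l2 : List V}
    (h : PL G S (l1 ++ l2))
    (h1 : ∀ a ∈ (l1 ++ l2).head?, ∀ b ∈ l2.head?, G.Adj a b)
    (h2 : ∀ a ∈ (l1 ++ l2).getLast?, ∀ b ∈ l1.getLast?, G.Adj a b) (hl1 : l1 ≠ []) (hl2 : l2 ≠ []) :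
    PL G S (l1 ++ l2.reverse) ∧
      ∀ a ∈ (l1 ++ l2.reverse).getLast?, ∀ b ∈ (l1 ++ l2.reverse).head?, G.Adj a b := by
  obtain ⟨k1, k2, k3⟩ := h
  rw [List.isChain_append] at k2
  have hlast : (l1 ++ l2).getLast? = l2.getLast? := by
    rw [List.getLast?_append]
    cases h : l2.getLast? with
    | none => exact absurd (List.getLast?_eq_none_iff.1 h) hl2
    | some a => rfl
  have hhead : ∀ l : List V, (l1 ++ l).head? = l1.head? := by
    intro l
    cases l1 with
    | nil => exact absurd rfl hl1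
    | cons a m => rfl
  have hlast' : (l1 ++ l2.reverse).getLast? = l2.head? := by
    rw [List.getLast?_append, List.getLast?_reverse]
    cases h : l2.head? with
    | none => exact absurd (List.head?_eq_none_iff.1 h) hl2
    | some a => rfl
  refine ⟨⟨?_, ?_, ?_⟩, ?_⟩
  · rw [List.nodup_append] at k1 ⊢
    refine ⟨k1.1, List.nodup_reverse.2 k1.2.1, ?_⟩
    intro a ha b hb
    exact k1.2.2 a ha b (List.mem_reverse.1 hb)
  · rw [List.isChain_append]
    refine ⟨k2.1, ?_, ?_⟩
    · rw [List.isChain_reverse]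
      exact k2.2.1.imp (fun a b h => h.symm)
    · intro x hx y hy
      rw [List.head?_reverse] at hy
      exact (h2 y (by rw [hlast]; exact hy) x hx).symm
  · intro x hx
    apply k3
    rw [List.mem_append] at hx ⊢
    rw [List.mem_reverse] at hx
    exact hx
  · intro a ha b hb
    rw [hlast'] at ha
    rw [hhead] at hb
    exact (h1 b (by rw [hhead]; exact hb) a ha).symm

lemma PL.reverse {G : SimpleGraph V} {S : Finset V} {l : List V} (h : PL G S l) :
    PL G S l.reverse := by
  refine ⟨List.nodup_reverse.2 h.1, ?_, fun x hx => h.2.2 x (List.mem_reverse.1 hx)⟩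
  rw [List.isChain_reverse]
  exact h.2.1.imp (fun a b h => h.symm)

lemma head_nbr {G : SimpleGraph V} {S : Finset V} {l : List V} (h : PL G S l)
    (hmax : ∀ l', PL G S l' → l'.length ≤ l.length) {a : V} (ha : a ∈ l.head?) {y : V}
    (hy : y ∈ S) (hay : G.Adj a y) : y ∈ l := by
  by_contra hyl
  have h2 : PL G S (y :: l) := by
    refine ⟨List.nodup_cons.2 ⟨hyl, h.1⟩, ?_, ?_⟩
    · rw [List.isChain_cons]
      refine ⟨?_, h.2.1⟩
      intro z hz
      have : a = z := by
        simp only [Option.mem_def] at ha hz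
        rw [ha] at hz
        exact Option.some.inj hz
      exact this ▸ hay.symm
    · intro z hz
      rw [List.mem_cons] at hz
      rcases hz with rfl | hz
      · exact hy
      · exact h.2.2 z hz
  have := hmax _ h2
  rw [List.length_cons] at this
  omega

open Classical in
/-- the localised path theorem (Kirsch and Nir), with the structure in case of equality -/
theorem path_thm (G : SimpleGraph V) {s : ℕ} (hs : 2 ≤ s) (S : Finset V) : PT G s S := by
  induction S using Finset.strongInduction with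
  | H S ih =>
  rcases S.eq_empty_or_nonempty with rfl | ⟨v0, hv0⟩
  · have hK : KS G s ∅ = ∅ := by
      rw [Finset.eq_empty_iff_forall_notMem]
      intro T hT
      rw [mem_KS] at hT
      have := Finset.subset_empty.1 hT.1
      rw [this] at hT
      simp at hT
      omega
    constructor
    · rw [hK]; simp
    · intro _
      exact ⟨by simp, by simp⟩
  · have hex : ∃ l, PL G S l ∧ ∀ l', PL G S l' → l'.length ≤ l.length := by
      have hne : {k | ∃ l, PL G S l ∧ l.length = k}.Nonempty :=
        ⟨0, [], ⟨by simp, by simp, by simp⟩, rfl⟩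
      have hb : BddAbove {k | ∃ l, PL G S l ∧ l.length = k} := by
        refine ⟨S.card, ?_⟩
        rintro k ⟨l, hl, rfl⟩
        exact hl.length_le
      obtain ⟨l, hl, hlen⟩ := Nat.sSup_mem hne hb
      refine ⟨l, hl, fun l' hl' => ?_⟩
      rw [hlen]
      exact le_csSup hb ⟨l', hl', rfl⟩
    obtain ⟨l, hl, hmax⟩ := hex
    have hlpos : 1 ≤ l.length := by
      have := hmax [v0] ⟨by simp, by simp, by simpa using hv0⟩
      simpa using this
    have hne : l ≠ [] := by
      rintro rfl
      simp at hlpos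
    obtain ⟨a, ha⟩ : ∃ a, a ∈ l.head? := ⟨l.head hne, by simp [List.head?_eq_some_head hne]⟩
    obtain ⟨b, hb⟩ : ∃ b, b ∈ l.getLast? := ⟨l.getLast hne, by simp [List.getLast?_eq_some_getLast hne]⟩
    have hal : a ∈ l := List.mem_of_mem_head? ha
    have hbl : b ∈ l := List.mem_of_mem_getLast? hb
    have hNa : ∀ y ∈ S, G.Adj a y → y ∈ l := fun y hy h => head_nbr hl hmax ha hy h
    have hNb : ∀ y ∈ S, G.Adj b y → y ∈ l := by
      intro y hy h
      have := head_nbr hl.reverse (fun l' hl' => by rw [List.length_reverse]; exact hmax l' hl')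
        (a := b) (by rw [List.head?_reverse]; exact hb) hy h
      exact List.mem_reverse.1 this
    have haS := hl.2.2 a hal
    have hbS := hl.2.2 b hbl
    by_cases hda : 2 * (S.filter (fun y => G.Adj a y)).card ≤ l.length - 1
    · exact removal hs haS hl hal hNa hda (ih _ (Finset.erase_ssubset haS))
    by_cases hdb : 2 * (S.filter (fun y => G.Adj b y)).card ≤ l.length - 1
    · exact removal hs hbS hl hbl hNb hdb (ih _ (Finset.erase_ssubset hbS))
    push Not at hda hdb
    -- crossing
    set A := (Finset.range (l.length - 1)).filter (fun i => G.Adj a (l.getD (i + 1) a)) with hA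
    set B := (Finset.range (l.length - 1)).filter (fun i => G.Adj b (l.getD i a)) with hB
    have ha0 : l[0]? = some a := by
      rw [← List.head?_eq_getElem?]; exact ha
    have hb0 : l[l.length - 1]? = some b := by
      rw [← List.getLast?_eq_getElem?]; exact hb
    have hcA : (S.filter (fun y => G.Adj a y)).card ≤ A.card := by
      refine le_trans (Finset.card_le_card ?_) (Finset.card_image_le (f := fun i => l.getD (i + 1) a))
      intro y hy
      rw [Finset.mem_filter] at hy
      have hyl := hNa y hy.1 hy.2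
      obtain ⟨j, hj, hjy⟩ := List.mem_iff_getElem.1 hyl
      have hj0 : j ≠ 0 := by
        rintro rfl
        rw [List.getElem?_eq_getElem hj, hjy] at ha0
        have := Option.some.inj ha0
        exact hy.2.ne this.symm
      rw [Finset.mem_image]
      refine ⟨j - 1, ?_, ?_⟩
      · rw [hA, Finset.mem_filter, Finset.mem_range]
        refine ⟨by omega, ?_⟩
        have : j - 1 + 1 = j := by omega
        rw [this, List.getD_eq_getElem _ _ hj, hjy]
        exact hy.2
      · have : j - 1 + 1 = j := by omega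
        simp only [this]
        rw [List.getD_eq_getElem _ _ hj, hjy]
    have hcB : (S.filter (fun y => G.Adj b y)).card ≤ B.card := by
      refine le_trans (Finset.card_le_card ?_) (Finset.card_image_le (f := fun i => l.getD i a))
      intro y hy
      rw [Finset.mem_filter] at hy
      have hyl := hNb y hy.1 hy.2
      obtain ⟨j, hj, hjy⟩ := List.mem_iff_getElem.1 hyl
      have hj0 : j ≠ l.length - 1 := by
        rintro rfl
        rw [List.getElem?_eq_getElem hj, hjy] at hb0
        have := Option.some.inj hb0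
        exact hy.2.ne this.symm
      rw [Finset.mem_image]
      refine ⟨j, ?_, ?_⟩
      · rw [hB, Finset.mem_filter, Finset.mem_range]
        refine ⟨by omega, ?_⟩
        rw [List.getD_eq_getElem _ _ hj, hjy]
        exact hy.2
      · rw [List.getD_eq_getElem _ _ hj, hjy]
    obtain ⟨i, hi⟩ : (A ∩ B).Nonempty := by
      apply Finset.inter_nonempty_of_card_lt_card_add_card (s := Finset.range (l.length - 1))
        (t := A) (u := B) (Finset.filter_subset _ _) (Finset.filter_subset _ _)
      rw [Finset.card_range]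
      omega
    rw [Finset.mem_inter, hA, hB, Finset.mem_filter, Finset.mem_filter, Finset.mem_range] at hi
    obtain ⟨⟨hi1, hi2⟩, -, hi3⟩ := hi
    have hsplit : l.take (i + 1) ++ l.drop (i + 1) = l := List.take_append_drop _ _
    have hl' : PL G S (l.take (i + 1) ++ l.drop (i + 1)) := by rw [hsplit]; exact hl
    have hget1 : l.getD (i + 1) a = l[i + 1]'(by omega) := List.getD_eq_getElem _ _ _
    have hget0 : l.getD i a = l[i]'(by omega) := List.getD_eq_getElem _ _ _
    have hcross := crossing hl' (by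
        intro x hx y hy
        rw [hsplit] at hx
        have hxa : a = x := by
          simp only [Option.mem_def] at ha hx
          rw [ha] at hx; exact Option.some.inj hx
        rw [List.head?_drop, Option.mem_def, List.getElem?_eq_getElem (by omega : i + 1 < l.length)] at hy
        have hy' := Option.some.inj hy
        rw [← hxa, ← hy', ← hget1]
        exact hi2)
      (by
        intro x hx y hy
        rw [hsplit] at hx
        have hxb : b = x := by
          simp only [Option.mem_def] at hb hx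
          rw [hb] at hx; exact Option.some.inj hx
        rw [List.getLast?_take, Option.mem_def] at hy
        simp only [Nat.add_eq_zero_iff, one_ne_zero, and_false, if_false, Nat.add_sub_cancel] at hy
        rw [List.getElem?_eq_getElem (by omega : i < l.length)] at hy
        have hy' : l[i]'(by omega) = y := by simpa using hy
        rw [← hxb, ← hy', ← hget0]
        exact hi3)
      (by
        intro h
        rw [List.take_eq_nil_iff] at h
        rcases h with h | h
        · omega
        · exact hne h)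
      (by
        intro h
        rw [List.drop_eq_nil_iff] at h
        omega)
    obtain ⟨hc, hcl⟩ := hcross
    have hmemc : ∀ x, x ∈ (l.take (i + 1) ++ (l.drop (i + 1)).reverse) ↔ x ∈ l := by
      intro x
      rw [List.mem_append, List.mem_reverse, ← List.mem_append, hsplit]
    have hclosed := closed_of_cyclic hc hcl (by
      intro l' hl'
      rw [List.length_append, List.length_reverse, ← List.length_append, hsplit]
      exact hmax l' hl')
    refine comp_case hs (C := l.toFinset) (fun x hx => hl.2.2 x (by simpa using hx))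
      ⟨a, by simpa using hal⟩ ?_ hl (List.toFinset_card_of_nodup hl.1).symm
      (fun x hx => by simpa using hx) (ih _ ?_)
    · intro x hx y hy hyl
      rw [List.mem_toFinset] at hx hyl
      exact hclosed x ((hmemc x).2 hx) y hy (fun h => hyl ((hmemc y).1 h))
    · apply Finset.sdiff_ssubset (fun x hx => hl.2.2 x (by simpa using hx))
      exact ⟨a, by simpa using hal⟩

/-! ### the problem -/

/-- `γ_G(T)`: the largest length of a cycle of `G` passing through every vertex of `T`. -/
noncomputable def gam (G : SimpleGraph V) (T : Finset V) : ℕ :=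
  sSup {k | ∃ (v : V) (p : G.Walk v v), p.IsCycle ∧ p.length = k ∧ ∀ x ∈ T, x ∈ p.support}

/-- the weight `c'_G(T) = C(γ_G(T), 2) / C(γ_G(T), t)`. -/
noncomputable def wt (G : SimpleGraph V) (t : ℕ) (T : Finset V) : ℚ :=
  ((gam G T).choose 2 : ℚ) / ((gam G T).choose t : ℚ)

/-- `B` induces a connected subgraph without a cut vertex. -/
def NoCut (G : SimpleGraph V) (B : Set V) : Prop :=
  (G.induce B).Connected ∧ ∀ v ∈ B, (G.induce (B \ {v})).Preconnected

/-- `B` is the vertex set of a block of `G`: a maximal connected subgraph without a cut vertex. -/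
def IsBlock (G : SimpleGraph V) (B : Set V) : Prop :=
  Maximal (NoCut G) B

lemma gam_bdd [Fintype V] (G : SimpleGraph V) (T : Finset V) :
    BddAbove {k | ∃ (v : V) (p : G.Walk v v), p.IsCycle ∧ p.length = k ∧
      ∀ x ∈ T, x ∈ p.support} := by
  refine ⟨Fintype.card V, ?_⟩
  rintro k ⟨v, p, hp, rfl, -⟩
  have h1 := hp.support_nodup.length_le_card
  rw [List.length_tail, SimpleGraph.Walk.length_support] at h1
  simpa using h1

lemma exists_cycle_of_list {G : SimpleGraph V} {c : List V} (hne : c ≠ []) (hnd : c.Nodup)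
    (hch : c.IsChain G.Adj) (hcl : G.Adj (c.getLast hne) (c.head hne)) (hlen : 3 ≤ c.length) :
    ∃ (v : V) (p : G.Walk v v), p.IsCycle ∧ p.length = c.length ∧ ∀ x ∈ c, x ∈ p.support := by
  refine ⟨_, SimpleGraph.Walk.cons hcl (SimpleGraph.Walk.ofSupport c hne hch), ?_, ?_, ?_⟩
  · rw [SimpleGraph.Walk.cons_isCycle_iff]
    have hq : (SimpleGraph.Walk.ofSupport c hne hch).IsPath := by
      rw [SimpleGraph.Walk.isPath_def, SimpleGraph.Walk.support_ofSupport]
      exact hnd
    refine ⟨hq, fun hmem => ?_⟩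
    rw [Sym2.eq_swap] at hmem
    have := hq.length_eq_one_of_mem_edges hmem
    rw [SimpleGraph.Walk.length_ofSupport] at this
    omega
  · rw [SimpleGraph.Walk.length_cons, SimpleGraph.Walk.length_ofSupport]
    omega
  · intro x hx
    rw [SimpleGraph.Walk.support_cons, SimpleGraph.Walk.support_ofSupport]
    exact List.mem_cons_of_mem _ hx

lemma le_gam_of_list [Fintype V] {G : SimpleGraph V} {c : List V} (hne : c ≠ []) (hnd : c.Nodup)
    (hch : c.IsChain G.Adj) (hcl : G.Adj (c.getLast hne) (c.head hne)) (hlen : 3 ≤ c.length)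
    {T : Finset V} (hT : ∀ x ∈ T, x ∈ c) : c.length ≤ gam G T := by
  obtain ⟨v, p, h1, h2, h3⟩ := exists_cycle_of_list hne hnd hch hcl hlen
  exact le_csSup (gam_bdd G T) ⟨v, p, h1, h2, fun x hx => h3 x (hT x hx)⟩

/-- a cyclic list with all of a clique -/
lemma card_le_gam [Fintype V] {G : SimpleGraph V} {Q T : Finset V} (hQ : G.IsClique (Q : Set V))
    (h3 : 3 ≤ Q.card) (hTQ : T ⊆ Q) : Q.card ≤ gam G T := by
  have hne : Q.toList ≠ [] := by
    rw [Ne, Finset.toList_eq_nil]
    rintro rfl
    simp at h3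
  have hc : G.IsClique {x | x ∈ Q.toList} := hQ.subset (fun x hx => by simpa using hx)
  have hlen : Q.toList.length = Q.card := Finset.length_toList Q
  have hne2 : Q.toList.getLast hne ≠ Q.toList.head hne := by
    intro h
    rw [List.getLast_eq_getElem, List.head_eq_getElem] at h
    have := (Q.nodup_toList.getElem_inj_iff).1 h
    omega
  have := le_gam_of_list (G := G) (T := T) hne Q.nodup_toList (chain_of_clique Q.nodup_toList hc)
    (hc (List.getLast_mem hne) (List.head_mem hne) hne2) (by omega)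
    (fun x hx => by simpa using hTQ hx)
  omega

open Classical in
/-- the neighbourhood of `v` -/
noncomputable def nb [Fintype V] (G : SimpleGraph V) (v : V) : Finset V :=
  Finset.univ.filter (fun y => G.Adj v y)

lemma mem_nb [Fintype V] {G : SimpleGraph V} {v y : V} : y ∈ nb G v ↔ G.Adj v y := by
  classical
  simp [nb]

lemma erase_nb [Fintype V] [DecidableEq V] {G : SimpleGraph V} {T : Finset V}
    (hT : G.IsClique (T : Set V)) {v : V} (hv : v ∈ T) : T.erase v ⊆ nb G v := by
  intro y hy
  rw [Finset.mem_erase] at hy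
  rw [mem_nb]
  exact hT hv hy.2 (Ne.symm hy.1)

/-- linking paths in the neighbourhood to cycles -/
lemma pl_add_one_le_gam [Fintype V] [DecidableEq V] {G : SimpleGraph V} {T : Finset V}
    (hT : G.IsClique (T : Set V)) (h3 : 3 ≤ T.card) {v : V} (hv : v ∈ T) :
    pl G (nb G v) (T.erase v) + 1 ≤ gam G T := by
  have hsub := erase_nb hT hv
  have hcl : G.IsClique ((T.erase v : Finset V) : Set V) :=
    hT.subset (by exact_mod_cast Finset.erase_subset v T)
  obtain ⟨l, hl, hlen, hTl⟩ := pl_spec hsub hcl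
  have hge := card_le_pl hsub hcl
  rw [Finset.card_erase_of_mem hv] at hge
  have hlne : l ≠ [] := by
    rintro rfl
    simp at hlen
    omega
  have hvl : v ∉ l := by
    intro h
    have := hl.2.2 v h
    rw [mem_nb] at this
    exact this.ne rfl
  have hadj : ∀ x ∈ l, G.Adj v x := fun x hx => mem_nb.1 (hl.2.2 x hx)
  have h := le_gam_of_list (G := G) (T := T) (c := v :: l) (by simp)
    (List.nodup_cons.2 ⟨hvl, hl.1⟩)
    (by
      rw [List.isChain_cons]
      refine ⟨fun y hy => hadj y (List.mem_of_mem_head? hy), hl.2.1⟩)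
    (by
      rw [List.getLast_cons hlne, List.head_cons]
      exact (hadj _ (List.getLast_mem hlne)).symm)
    (by rw [List.length_cons]; omega)
    (by
      intro x hx
      by_cases hxv : x = v
      · rw [hxv]; simp
      · exact List.mem_cons_of_mem _ (hTl x (Finset.mem_erase.2 ⟨hxv, hx⟩)))
  rw [List.length_cons, hlen] at h
  exact h

lemma choose_t_identity {g t : ℕ} (ht : 2 ≤ t) (hg : t ≤ g) :
    ((g.choose t : ℕ) : ℚ) * ((t : ℚ) * ((t : ℚ) - 1)) =
      (g : ℚ) * ((g : ℚ) - 1) * ((g - 2).choose (t - 2) : ℚ) := by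
  obtain ⟨a, rfl⟩ : ∃ a, g = a + 2 := ⟨g - 2, by omega⟩
  obtain ⟨c, rfl⟩ : ∃ c, t = c + 2 := ⟨t - 2, by omega⟩
  simp only [Nat.add_sub_cancel]
  have h1 := Nat.add_one_mul_choose_eq (a + 1) (c + 1)
  have h2 := Nat.add_one_mul_choose_eq a c
  have h1' : ((a : ℚ) + 1 + 1) * ((a + 1).choose (c + 1) : ℚ) =
      ((a + 1 + 1).choose (c + 1 + 1) : ℚ) * ((c : ℚ) + 1 + 1) := by exact_mod_cast h1
  have h2' : ((a : ℚ) + 1) * (a.choose c : ℚ) = ((a + 1).choose (c + 1) : ℚ) * ((c : ℚ) + 1) := by
    exact_mod_cast h2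
  have e1 : a + 2 = a + 1 + 1 := rfl
  have e2 : c + 2 = c + 1 + 1 := rfl
  rw [e1, e2]
  push_cast
  linear_combination (-(c : ℚ) - 1) * h1' - ((a : ℚ) + 1 + 1) * h2'

lemma W_eq {g t : ℕ} (ht : 3 ≤ t) (hg : t ≤ g) :
    ((g.choose 2 : ℕ) : ℚ) / ((g.choose t : ℕ) : ℚ) = (t : ℚ) / 2 * w (t - 1) (g - 1) := by
  have h1 := choose_t_identity (g := g) (t := t) (by omega) hg
  have h2 : ((g.choose 2 : ℕ) : ℚ) = (g : ℚ) * ((g : ℚ) - 1) / 2 := by
    rw [Nat.cast_choose_two]
  have hp : (0 : ℚ) < ((g.choose t : ℕ) : ℚ) := by exact_mod_cast Nat.choose_pos hg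
  have hp2 : (0 : ℚ) < (((g - 2).choose (t - 2) : ℕ) : ℚ) := by
    exact_mod_cast Nat.choose_pos (by omega)
  unfold w
  have e1 : g - 1 - 1 = g - 2 := by omega
  have e2 : t - 1 - 1 = t - 2 := by omega
  rw [e1, e2, h2]
  have e3 : ((t - 1 : ℕ) : ℚ) = (t : ℚ) - 1 := by
    push_cast [show 1 ≤ t by omega]; ring
  rw [e3]
  field_simp
  linear_combination -h1

/-! ### the inequality -/

section main

variable [Fintype V] [DecidableEq V] {G : SimpleGraph V} {t : ℕ}

omit [DecidableEq V] in
lemma wt_eq (ht : 3 ≤ t) {T : Finset V} (hT : T ∈ KS G t univ) :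
    wt G t T = (t : ℚ) / 2 * w (t - 1) (gam G T - 1) := by
  rw [mem_KS] at hT
  have := card_le_gam (T := T) hT.2.2 (by omega) (Finset.Subset.refl T)
  exact W_eq ht (by omega)

lemma wt_le (ht : 3 ≤ t) {T : Finset V} (hT : T ∈ KS G t univ) {v : V} (hv : v ∈ T) :
    wt G t T ≤ (t : ℚ) / 2 * w (t - 1) (pl G (nb G v) (T.erase v)) := by
  rw [wt_eq ht hT]
  rw [mem_KS] at hT
  have h1 := pl_add_one_le_gam hT.2.2 (by omega) hv
  have h2 := card_le_pl (erase_nb hT.2.2 hv)
    (hT.2.2.subset (by exact_mod_cast Finset.erase_subset v T))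
  rw [Finset.card_erase_of_mem hv] at h2
  have h3 : w (t - 1) (gam G T - 1) ≤ w (t - 1) (pl G (nb G v) (T.erase v)) :=
    w_le (by omega) (by omega) (by omega)
  have h4 : (0 : ℚ) ≤ (t : ℚ) / 2 := by positivity
  exact mul_le_mul_of_nonneg_left h3 h4

lemma gam_of_wt_eq (ht : 3 ≤ t) {T : Finset V} (hT : T ∈ KS G t univ) {v : V} (hv : v ∈ T)
    (heq : wt G t T = (t : ℚ) / 2 * w (t - 1) (pl G (nb G v) (T.erase v))) :
    gam G T = pl G (nb G v) (T.erase v) + 1 := by
  rw [wt_eq ht hT] at heq
  rw [mem_KS] at hT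
  have h1 := pl_add_one_le_gam hT.2.2 (by omega) hv
  have h2 := card_le_pl (erase_nb hT.2.2 hv)
    (hT.2.2.subset (by exact_mod_cast Finset.erase_subset v T))
  rw [Finset.card_erase_of_mem hv] at h2
  by_contra hne
  have h3 : w (t - 1) (gam G T - 1) < w (t - 1) (pl G (nb G v) (T.erase v)) :=
    w_lt (by omega) (by omega) (by omega)
  have h4 : (0 : ℚ) < (t : ℚ) / 2 := by
    have : (0 : ℚ) < t := by exact_mod_cast (by omega : 0 < t)
    positivity
  exact (mul_lt_mul_of_pos_left h3 h4).ne heq

/-- cliques through `v` correspond to cliques in the neighbourhood -/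
lemma sum_through (ht : 1 ≤ t) (v : V) (F : Finset V → ℚ) :
    ∑ T ∈ (KS G t univ).filter (fun T => v ∈ T), F (T.erase v) =
      ∑ T ∈ KS G (t - 1) (nb G v), F T := by
  refine Finset.sum_bij' (fun T _ => T.erase v) (fun T _ => insert v T) ?_ ?_ ?_ ?_ ?_
  · intro T hT
    rw [Finset.mem_filter, mem_KS] at hT
    obtain ⟨⟨h1, h2, h3⟩, h4⟩ := hT
    rw [mem_KS]
    refine ⟨erase_nb h3 h4, by rw [Finset.card_erase_of_mem h4, h2], ?_⟩
    exact h3.subset (by exact_mod_cast Finset.erase_subset v T)
  · intro T hT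
    rw [mem_KS] at hT
    obtain ⟨h1, h2, h3⟩ := hT
    have hvT : v ∉ T := fun h => (mem_nb.1 (h1 h)).ne rfl
    rw [Finset.mem_filter, mem_KS]
    refine ⟨⟨Finset.subset_univ _, ?_, ?_⟩, Finset.mem_insert_self _ _⟩
    · rw [Finset.card_insert_of_notMem hvT, h2]; omega
    · rw [Finset.coe_insert, SimpleGraph.isClique_insert]
      exact ⟨h3, fun b hb _ => mem_nb.1 (h1 hb)⟩
  · intro T hT
    exact Finset.insert_erase (Finset.mem_filter.1 hT).2
  · intro T hT
    rw [mem_KS] at hT
    have hvT : v ∉ T := fun h => (mem_nb.1 (hT.1 h)).ne rfl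
    exact Finset.erase_insert hvT
  · intro T hT
    rfl

lemma sum_vertex_le (ht : 3 ≤ t) (v : V) :
    ∑ T ∈ (KS G t univ).filter (fun T => v ∈ T), wt G t T ≤ (t : ℚ) / 2 * (nb G v).card := by
  calc ∑ T ∈ (KS G t univ).filter (fun T => v ∈ T), wt G t T
      ≤ ∑ T ∈ (KS G t univ).filter (fun T => v ∈ T),
          (t : ℚ) / 2 * w (t - 1) (pl G (nb G v) (T.erase v)) := by
        apply Finset.sum_le_sum
        intro T hT
        rw [Finset.mem_filter] at hT
        exact wt_le ht hT.1 hT.2
    _ = ∑ T ∈ KS G (t - 1) (nb G v), (t : ℚ) / 2 * w (t - 1) (pl G (nb G v) T) :=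
        sum_through (by omega) v (fun T => (t : ℚ) / 2 * w (t - 1) (pl G (nb G v) T))
    _ = (t : ℚ) / 2 * ∑ T ∈ KS G (t - 1) (nb G v), w (t - 1) (pl G (nb G v) T) := by
        rw [Finset.mul_sum]
    _ ≤ (t : ℚ) / 2 * (nb G v).card := by
        apply mul_le_mul_of_nonneg_left (path_thm G (by omega) (nb G v)).1
        positivity

lemma sum_vertex_eq (ht : 3 ≤ t) (v : V)
    (heq : ∑ T ∈ (KS G t univ).filter (fun T => v ∈ T), wt G t T = (t : ℚ) / 2 * (nb G v).card) :
    Struct G (t - 1) (nb G v) ∧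
      ∀ T ∈ KS G t univ, v ∈ T → gam G T = pl G (nb G v) (T.erase v) + 1 := by
  have hle : ∀ T ∈ (KS G t univ).filter (fun T => v ∈ T),
      wt G t T ≤ (t : ℚ) / 2 * w (t - 1) (pl G (nb G v) (T.erase v)) := by
    intro T hT
    rw [Finset.mem_filter] at hT
    exact wt_le ht hT.1 hT.2
  have h1 := Finset.sum_le_sum hle
  have h2 := sum_through (G := G) (t := t) (by omega) v
    (fun T => (t : ℚ) / 2 * w (t - 1) (pl G (nb G v) T))
  have h3 : ∑ T ∈ KS G (t - 1) (nb G v), (t : ℚ) / 2 * w (t - 1) (pl G (nb G v) T) =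
      (t : ℚ) / 2 * ∑ T ∈ KS G (t - 1) (nb G v), w (t - 1) (pl G (nb G v) T) := by
    rw [Finset.mul_sum]
  have hP := path_thm G (s := t - 1) (by omega) (nb G v)
  have htpos : (0 : ℚ) < (t : ℚ) / 2 := by
    have : (0 : ℚ) < t := by exact_mod_cast (by omega : 0 < t)
    positivity
  have h4 : (t : ℚ) / 2 * ∑ T ∈ KS G (t - 1) (nb G v), w (t - 1) (pl G (nb G v) T) ≤
      (t : ℚ) / 2 * (nb G v).card := mul_le_mul_of_nonneg_left hP.1 htpos.le
  have h5 : (t : ℚ) / 2 * (nb G v).card ≤
      (t : ℚ) / 2 * ∑ T ∈ KS G (t - 1) (nb G v), w (t - 1) (pl G (nb G v) T) := by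
    rw [← heq, ← h3, ← h2]
    exact h1
  constructor
  · exact hP.2 (le_of_mul_le_mul_left h5 htpos)
  · intro T hT hvT
    have h6 : ∑ T ∈ (KS G t univ).filter (fun T => v ∈ T), wt G t T =
        ∑ T ∈ (KS G t univ).filter (fun T => v ∈ T),
          (t : ℚ) / 2 * w (t - 1) (pl G (nb G v) (T.erase v)) := by
      apply le_antisymm h1
      rw [h2, h3, heq]
      exact h4
    exact gam_of_wt_eq ht hT hvT ((Finset.sum_eq_sum_iff_of_le hle).1 h6 T
      (Finset.mem_filter.2 ⟨hT, hvT⟩))

lemma double_count (f : Finset V → ℚ) :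
    ∑ v : V, ∑ T ∈ (KS G t univ).filter (fun T => v ∈ T), f T =
      (t : ℚ) * ∑ T ∈ KS G t univ, f T := by
  simp_rw [Finset.sum_filter]
  rw [Finset.sum_comm, Finset.mul_sum]
  apply Finset.sum_congr rfl
  intro T hT
  rw [mem_KS] at hT
  rw [← Finset.sum_filter, Finset.sum_const, nsmul_eq_mul]
  have : Finset.univ.filter (fun v => v ∈ T) = T := by ext; simp
  rw [this, hT.2.1]

omit [DecidableEq V] in
open Classical in
lemma sum_nb_card [DecidableRel G.Adj] :
    ∑ v : V, ((nb G v).card : ℚ) = 2 * (G.edgeFinset.card : ℚ) := by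
  have h := G.sum_degrees_eq_twice_card_edges
  have h2 : ∀ v, (nb G v).card = G.degree v := by
    intro v
    rw [← SimpleGraph.card_neighborFinset_eq_degree]
    congr 1
    ext y
    rw [mem_nb, SimpleGraph.mem_neighborFinset]
  simp_rw [h2]
  exact_mod_cast h

theorem main_le [DecidableRel G.Adj] (ht : 3 ≤ t) :
    ∑ T ∈ KS G t univ, wt G t T ≤ (G.edgeFinset.card : ℚ) := by
  have h1 := double_count (G := G) (t := t) (wt G t)
  have h2 : ∑ v : V, ∑ T ∈ (KS G t univ).filter (fun T => v ∈ T), wt G t T ≤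
      ∑ v : V, (t : ℚ) / 2 * (nb G v).card := Finset.sum_le_sum (fun v _ => sum_vertex_le ht v)
  rw [← Finset.mul_sum, sum_nb_card, h1] at h2
  have htpos : (0 : ℚ) < (t : ℚ) := by exact_mod_cast (by omega : 0 < t)
  have h3 : (t : ℚ) * ∑ T ∈ KS G t univ, wt G t T ≤ (t : ℚ) * (G.edgeFinset.card : ℚ) := by
    linarith
  exact le_of_mul_le_mul_left h3 htpos

theorem main_eq [DecidableRel G.Adj] (ht : 3 ≤ t)
    (heq : ∑ T ∈ KS G t univ, wt G t T = (G.edgeFinset.card : ℚ)) (v : V) :
    Struct G (t - 1) (nb G v) ∧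
      ∀ T ∈ KS G t univ, v ∈ T → gam G T = pl G (nb G v) (T.erase v) + 1 := by
  have h1 := double_count (G := G) (t := t) (wt G t)
  have hle : ∀ v ∈ (univ : Finset V), ∑ T ∈ (KS G t univ).filter (fun T => v ∈ T), wt G t T ≤
      (t : ℚ) / 2 * (nb G v).card := fun v _ => sum_vertex_le ht v
  have h2 : ∑ v : V, ∑ T ∈ (KS G t univ).filter (fun T => v ∈ T), wt G t T =
      ∑ v : V, (t : ℚ) / 2 * (nb G v).card := by
    rw [← Finset.mul_sum, sum_nb_card, h1, heq]
    ring
  exact sum_vertex_eq ht v ((Finset.sum_eq_sum_iff_of_le hle).1 h2 v (mem_univ v))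

end main

/-! ### blocks -/

lemma NoCut.preconn {G : SimpleGraph V} {A : Set V} (h : NoCut G A) (v : V) :
    (G.induce (A \ {v})).Preconnected := by
  by_cases hv : v ∈ A
  · exact h.2 v hv
  · rw [Set.sdiff_singleton_eq_self hv]
    exact h.1.preconnected

lemma noCut_union {G : SimpleGraph V} {A B : Set V} (hA : NoCut G A) (hB : NoCut G B) {x y : V}
    (hxy : x ≠ y) (hxA : x ∈ A) (hxB : x ∈ B) (hyA : y ∈ A) (hyB : y ∈ B) : NoCut G (A ∪ B) := by
  constructor
  · exact SimpleGraph.induce_union_connected hA.1.preconnected hB.1.preconnected ⟨x, hxA, hxB⟩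
  · intro v _
    obtain ⟨z, hz, hzA, hzB⟩ : ∃ z, z ≠ v ∧ z ∈ A ∧ z ∈ B := by
      by_cases hxv : x = v
      · exact ⟨y, fun h => hxy (hxv.trans h.symm), hyA, hyB⟩
      · exact ⟨x, hxv, hxA, hxB⟩
    rw [Set.union_sdiff_distrib]
    exact (SimpleGraph.induce_union_connected (hA.preconn v) (hB.preconn v)
      ⟨z, ⟨hzA, hz⟩, ⟨hzB, hz⟩⟩).preconnected

lemma preconn_of_clique {G : SimpleGraph V} {A : Set V} (hA : G.IsClique A) :
    (G.induce A).Preconnected := by
  intro a b
  by_cases hab : a = b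
  · rw [hab]
  · have : (G.induce A).Adj a b := by
      rw [SimpleGraph.comap_adj]
      exact hA a.2 b.2 (fun h => hab (Subtype.ext h))
    exact this.reachable

lemma noCut_clique {G : SimpleGraph V} {A : Set V} (hA : G.IsClique A) (hne : A.Nonempty) :
    NoCut G A := by
  constructor
  · have : Nonempty A := hne.to_subtype
    exact ⟨preconn_of_clique hA⟩
  · intro v _
    exact preconn_of_clique (hA.subset Set.sdiff_subset)

lemma noCut_cycle [DecidableEq V] {G : SimpleGraph V} {v : V} (c : G.Walk v v) (hc : c.IsCycle) :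
    NoCut G {x | x ∈ c.support} := by
  constructor
  · exact c.connected_induce_support
  · intro u hu
    -- rotate so that u is the base point
    have hdc : (c.rotate u hu).IsCycle := SimpleGraph.Walk.IsCycle.rotate hu hc
    have hmem : ∀ x, x ∈ (c.rotate u hu).support ↔ x ∈ c.support := by
      intro x
      exact SimpleGraph.Walk.mem_support_rotate_iff c u hu
    generalize c.rotate u hu = d at hdc hmem
    cases d with
    | nil => exact absurd hdc (by simp)
    | cons h q =>
      rename_i w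
      rw [SimpleGraph.Walk.cons_isCycle_iff] at hdc
      have hqr : q.reverse.IsPath := hdc.1.reverse
      have hmemr : ∀ x, x ∈ q.reverse.support ↔ x ∈ q.support := by
        intro x; rw [SimpleGraph.Walk.support_reverse, List.mem_reverse]
      generalize q.reverse = r at hqr hmemr
      cases r with
      | nil => exact absurd rfl h.ne
      | cons h' r =>
        rw [SimpleGraph.Walk.cons_isPath_iff] at hqr
        have hset : {x | x ∈ c.support} \ {u} = {x | x ∈ r.support} := by
          ext x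
          simp only [Set.mem_sdiff, Set.mem_ofPred_eq, Set.mem_singleton_iff]
          rw [← hmem, SimpleGraph.Walk.support_cons, List.mem_cons, ← hmemr,
            SimpleGraph.Walk.support_cons, List.mem_cons]
          constructor
          · rintro ⟨h1 | h1 | h1, h2⟩
            · exact absurd h1 h2
            · exact absurd h1 h2
            · exact h1
          · intro h1
            exact ⟨Or.inr (Or.inr h1), fun h2 => hqr.2 (h2 ▸ h1)⟩
        rw [hset]
        exact (SimpleGraph.Walk.connected_induce_support _).preconnected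

/-- splitting a list at the first element of `Q` -/
lemma split_first {Q : Finset V} {L : List V} (h : ∃ u ∈ L, u ∈ Q) :
    ∃ l' b rest, L = l' ++ b :: rest ∧ (∀ x ∈ l', x ∉ Q) ∧ b ∈ Q := by
  classical
  induction L with
  | nil => simp at h
  | cons a L ih =>
    by_cases ha : a ∈ Q
    · exact ⟨[], a, L, rfl, by simp, ha⟩
    · obtain ⟨u, hu, huQ⟩ := h
      rw [List.mem_cons] at hu
      rcases hu with rfl | hu
      · exact absurd huQ ha
      · obtain ⟨l', b, rest, h1, h2, h3⟩ := ih ⟨u, hu, huQ⟩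
        refine ⟨a :: l', b, rest, by rw [h1]; rfl, ?_, h3⟩
        intro x hx
        rw [List.mem_cons] at hx
        rcases hx with rfl | hx
        · exact ha
        · exact h2 x hx

/-- if a set without cut vertex meets a clique `Q` in two vertices and is not inside `Q`,
there is a longer cycle through `Q`. -/
lemma ear [Fintype V] [DecidableEq V] {G : SimpleGraph V} {B : Set V} (hB : NoCut G B)
    {Q : Finset V} (hQ : G.IsClique (Q : Set V)) (h3 : 3 ≤ Q.card) {x y : V} (hxy : x ≠ y)
    (hxB : x ∈ B) (hyB : y ∈ B) (hxQ : x ∈ Q) (hyQ : y ∈ Q) (hnot : ¬ B ⊆ (Q : Set V))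
    {T : Finset V} (hTQ : T ⊆ Q) : Q.card + 1 ≤ gam G T := by
  rw [Set.not_subset] at hnot
  obtain ⟨z0, hz0B, hz0Q⟩ := hnot
  -- an edge of G[B] leaving Q
  obtain ⟨a, z, haB, hzB, haQ, hzQ, haz⟩ : ∃ a z, a ∈ B ∧ z ∈ B ∧ a ∈ Q ∧ z ∉ Q ∧ G.Adj a z := by
    obtain ⟨p⟩ := hB.1.preconnected ⟨x, hxB⟩ ⟨z0, hz0B⟩
    obtain ⟨d, -, hd1, hd2⟩ := p.exists_boundary_dart {v : B | (v : V) ∈ Q} hxQ (by exact hz0Q)
    exact ⟨d.fst, d.snd, d.fst.2, d.snd.2, hd1, hd2, d.adj⟩
  -- another vertex of Q
  obtain ⟨u, huB, huQ, hua⟩ : ∃ u, u ∈ B ∧ u ∈ Q ∧ u ≠ a := by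
    by_cases hxa : x = a
    · exact ⟨y, hyB, hyQ, fun h => hxy (hxa.trans h.symm)⟩
    · exact ⟨x, hxB, hxQ, hxa⟩
  have hza : z ≠ a := fun h => hzQ (h ▸ haQ)
  obtain ⟨p, hp⟩ := (hB.preconn a ⟨z, hzB, hza⟩ ⟨u, huB, hua⟩).exists_isPath
  -- the list of vertices
  set L : List V := p.support.map Subtype.val with hL
  have hLnd : L.Nodup := by
    rw [hL]
    exact hp.support_nodup.map Subtype.val_injective
  have hLch : L.IsChain G.Adj := by
    rw [hL, List.isChain_map]
    exact p.isChain_adj_support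
  have hLa : a ∉ L := by
    intro h
    rw [hL, List.mem_map] at h
    obtain ⟨v, -, hv⟩ := h
    exact v.2.2 hv
  have hLu : ∃ u ∈ L, u ∈ Q := ⟨u, by
    rw [hL, List.mem_map]
    exact ⟨_, p.end_mem_support, rfl⟩, huQ⟩
  have hLhead : L.head? = some z := by
    rw [hL, List.head?_map, ← SimpleGraph.Walk.cons_tail_support]
    rfl
  obtain ⟨l', b, rest, hsplit, hl'Q, hbQ⟩ := split_first hLu
  have hl'ne : l' ≠ [] := by
    rintro rfl
    rw [hsplit, List.nil_append, List.head?_cons] at hLhead
    exact hzQ (Option.some.inj hLhead ▸ hbQ)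
  rw [hsplit] at hLnd hLch hLa hLhead
  have hab : a ≠ b := fun h => hLa (h ▸ by simp)
  set R : List V := ((Q.erase a).erase b).toList with hR
  have hRmem : ∀ v, v ∈ b :: R → v ∈ Q ∧ v ≠ a := by
    intro v hv
    rw [List.mem_cons] at hv
    rcases hv with rfl | hv
    · exact ⟨hbQ, hab.symm⟩
    · rw [hR, Finset.mem_toList, Finset.mem_erase, Finset.mem_erase] at hv
      exact ⟨hv.2.2, hv.2.1⟩
  have hRnd : (b :: R).Nodup := by
    rw [List.nodup_cons]
    exact ⟨by rw [hR, Finset.mem_toList]; exact Finset.notMem_erase _ _, Finset.nodup_toList _⟩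
  have hRch : (b :: R).IsChain G.Adj :=
    chain_of_clique hRnd (hQ.subset (fun v hv => (hRmem v hv).1))
  have hlenR : R.length = Q.card - 2 := by
    rw [hR, Finset.length_toList, Finset.card_erase_of_mem (Finset.mem_erase.2 ⟨hab.symm, hbQ⟩),
      Finset.card_erase_of_mem haQ]
    omega
  have hmem : ∀ v ∈ Q, v ∈ a :: (l' ++ (b :: R)) := by
    intro v hv
    rw [List.mem_cons, List.mem_append, List.mem_cons]
    by_cases hva : v = a
    · exact Or.inl hva
    · by_cases hvb : v = b
      · exact Or.inr (Or.inr (Or.inl hvb))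
      · refine Or.inr (Or.inr (Or.inr ?_))
        rw [hR, Finset.mem_toList, Finset.mem_erase, Finset.mem_erase]
        exact ⟨hvb, hva, hv⟩
  have hl'pos : 1 ≤ l'.length := List.length_pos_iff.2 hl'ne
  have hlast : (l' ++ (b :: R)).getLast (by simp) ∈ b :: R := by
    rw [List.getLast_append_of_ne_nil (by simp) (by simp)]
    exact List.getLast_mem _
  have hlen : (a :: (l' ++ (b :: R))).length = Q.card + l'.length := by
    rw [List.length_cons, List.length_append, List.length_cons, hlenR]
    omega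
  have key := le_gam_of_list (G := G) (T := T) (c := a :: (l' ++ (b :: R))) (by simp)
    (by
      rw [List.nodup_cons]
      constructor
      · intro h
        rw [List.mem_append] at h
        rcases h with h | h
        · exact hLa (List.mem_append_left _ h)
        · exact (hRmem a h).2 rfl
      · rw [List.nodup_append] at hLnd ⊢
        refine ⟨hLnd.1, hRnd, ?_⟩
        intro v hv v' hv' hvv
        exact hl'Q v hv (hvv ▸ (hRmem v' hv').1))
    (by
      rw [List.isChain_cons]
      constructor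
      · intro v hv
        have : z = v := by
          cases l' with
          | nil => exact absurd rfl hl'ne
          | cons c l' =>
            rw [List.cons_append, List.head?_cons] at hLhead
            rw [List.cons_append, List.head?_cons] at hv
            exact (Option.some.inj hLhead).symm.trans (Option.some.inj hv)
        exact this ▸ haz
      · rw [List.isChain_append] at hLch ⊢
        refine ⟨hLch.1, hRch, ?_⟩
        intro v hv v' hv'
        refine hLch.2.2 v hv v' ?_
        rw [List.head?_cons] at hv' ⊢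
        exact hv')
    (by
      rw [List.head_cons, List.getLast_cons (by simp)]
      have h1 := hRmem _ hlast
      exact hQ h1.1 haQ h1.2)
    (by rw [hlen]; omega)
    (fun v hv => hmem v (hTQ hv))
  rw [hlen] at key
  omega

section main2

variable [Fintype V] [DecidableEq V] {G : SimpleGraph V} {t : ℕ}

theorem blocks_of_eq (ht : 3 ≤ t)
    (hmain : ∀ v, Struct G (t - 1) (nb G v) ∧
      ∀ T ∈ KS G t univ, v ∈ T → gam G T = pl G (nb G v) (T.erase v) + 1)
    (B : Set V) (hB : IsBlock G B) :
    (∃ v, B = {v} ∧ ∀ w, ¬ G.Adj v w) ∨ (G.IsClique B ∧ t ≤ B.ncard) := by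
  classical
  by_cases hB1 : ∃ x ∈ B, ∃ y ∈ B, x ≠ y
  · right
    obtain ⟨x0, hx0, y0, hy0, hxy0⟩ := hB1
    obtain ⟨v, x, hvB, hxB, hvx⟩ : ∃ v x, v ∈ B ∧ x ∈ B ∧ G.Adj v x := by
      obtain ⟨p⟩ := hB.1.1.preconnected ⟨x0, hx0⟩ ⟨y0, hy0⟩
      obtain ⟨d, -, hd1, hd2⟩ := p.exists_boundary_dart {v : B | (v : V) = x0} rfl
        (fun h => hxy0 (by exact h.symm))
      exact ⟨d.fst, d.snd, d.fst.2, d.snd.2, d.adj⟩
    obtain ⟨hstr, hgam⟩ := hmain v
    set Q : Finset V := univ.filter (fun z => z = v ∨ z = x ∨ (G.Adj v z ∧ G.Adj x z)) with hQdef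
    have hvQ : v ∈ Q := by simp [hQdef]
    have hxQ : x ∈ Q := by simp [hQdef]
    have hQcl : G.IsClique (Q : Set V) := by
      intro a ha b hb hab
      simp only [hQdef, Finset.coe_filter, Finset.mem_univ, true_and, Set.mem_ofPred_eq] at ha hb
      rcases ha with rfl | rfl | ha
      · rcases hb with rfl | rfl | hb
        · exact absurd rfl hab
        · exact hvx
        · exact hb.1
      · rcases hb with rfl | rfl | hb
        · exact hvx.symm
        · exact absurd rfl hab
        · exact hb.2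
      · rcases hb with rfl | rfl | hb
        · exact ha.1.symm
        · exact ha.2.symm
        · exact hstr.1 a (mem_nb.2 ha.1) x (mem_nb.2 hvx) b (mem_nb.2 hb.1) ha.2.symm hb.2 hab
    obtain ⟨T', hT', hxT'⟩ := hstr.2 x (mem_nb.2 hvx)
    rw [mem_KS] at hT'
    have hvT' : v ∉ T' := fun h => (mem_nb.1 (hT'.1 h)).ne rfl
    set T := insert v T' with hT
    have hTK : T ∈ KS G t univ := by
      rw [mem_KS]
      refine ⟨Finset.subset_univ _, ?_, ?_⟩
      · rw [hT, Finset.card_insert_of_notMem hvT', hT'.2.1]; omega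
      · rw [hT, Finset.coe_insert, SimpleGraph.isClique_insert]
        exact ⟨hT'.2.2, fun b hb _ => mem_nb.1 (hT'.1 hb)⟩
    have hTQ : T ⊆ Q := by
      intro z hz
      rw [hT, Finset.mem_insert] at hz
      rcases hz with rfl | hz
      · exact hvQ
      · by_cases hzx : z = x
        · exact hzx ▸ hxQ
        · simp only [hQdef, Finset.mem_filter, Finset.mem_univ, true_and]
          exact Or.inr (Or.inr ⟨mem_nb.1 (hT'.1 hz), hT'.2.2 hxT' hz (Ne.symm hzx)⟩)
    have hTcard := (mem_KS.1 hTK).2.1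
    have hQcard : t ≤ Q.card := hTcard ▸ Finset.card_le_card hTQ
    have hgT := hgam T hTK (Finset.mem_insert_self _ _)
    have hup : pl G (nb G v) (T.erase v) ≤ (Q.erase v).card := by
      have hxT : x ∈ T.erase v := by
        rw [Finset.mem_erase]
        exact ⟨hvx.ne.symm, Finset.mem_insert_of_mem hxT'⟩
      refine pl_le_of_trans hstr.1 (erase_nb (mem_KS.1 hTK).2.2 (Finset.mem_insert_self _ _))
        ((mem_KS.1 hTK).2.2.subset (by exact_mod_cast Finset.erase_subset v T)) hxT _ ?_
      intro y hy hyx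
      rw [mem_nb] at hy
      rw [Finset.mem_erase]
      refine ⟨hy.ne.symm, ?_⟩
      simp only [hQdef, Finset.mem_filter, Finset.mem_univ, true_and]
      rcases hyx with h | h
      · exact Or.inr (Or.inl h)
      · exact Or.inr (Or.inr ⟨hy, h⟩)
    rw [Finset.card_erase_of_mem hvQ] at hup
    have hBQ : B ⊆ (Q : Set V) := by
      by_contra hnot
      have := ear hB.1 hQcl (by omega) hvx.ne hvB hxB hvQ hxQ hnot hTQ
      omega
    have hBeq : B = (Q : Set V) := hB.eq_of_subset (noCut_clique hQcl ⟨v, hvQ⟩) hBQ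
    rw [hBeq]
    exact ⟨hQcl, by rw [Set.ncard_coe_finset]; exact hQcard⟩
  · left
    push Not at hB1
    obtain ⟨⟨v, hv⟩⟩ := hB.1.1.nonempty
    have hBv : B = {v} := by
      ext z
      exact ⟨fun hz => hB1 z hz v hv, fun hz => by rw [Set.mem_singleton_iff.1 hz]; exact hv⟩
    refine ⟨v, hBv, fun w hvw => ?_⟩
    have hcl : G.IsClique ({v, w} : Set V) := by
      rw [SimpleGraph.isClique_pair]
      exact fun _ => hvw
    have := hB.eq_of_subset (noCut_clique hcl ⟨v, by simp⟩) (by rw [hBv]; simp)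
    have hw : w ∈ B := by rw [this]; simp
    exact hvw.ne (hB1 v hv w hw)

omit [DecidableEq V] in
lemma exists_block {v y : V} (h : G.Adj v y) :
    ∃ B : Set V, IsBlock G B ∧ v ∈ B ∧ y ∈ B := by
  have hcl : G.IsClique ({v, y} : Set V) := by
    rw [SimpleGraph.isClique_pair]
    exact fun _ => h
  obtain ⟨B, hB1, hB2⟩ := Finite.exists_le_maximal (noCut_clique hcl ⟨v, by simp⟩)
  exact ⟨B, hB2, hB1 (by simp), hB1 (by simp)⟩

lemma gam_block (ht : 3 ≤ t) {B : Finset V} (hB : IsBlock G (B : Set V))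
    (hcl : G.IsClique (B : Set V)) (hcard : t ≤ B.card) {T : Finset V} {v y : V} (hvy : v ≠ y)
    (hvB : v ∈ B) (hyB : y ∈ B) (hvT : v ∈ T) (hyT : y ∈ T) (hTB : T ⊆ B) :
    gam G T = B.card := by
  apply le_antisymm
  · apply csSup_le'
    rintro k ⟨u, p, hp, rfl, hpT⟩
    have hnc := noCut_cycle p hp
    have hun := noCut_union hnc hB.1 hvy (hpT v hvT) (by exact_mod_cast hvB) (hpT y hyT)
      (by exact_mod_cast hyB)
    have heq := hB.eq_of_subset hun Set.subset_union_right
    have hsub : ∀ x ∈ p.support, x ∈ B := by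
      intro x hx
      have : x ∈ (B : Set V) := by
        rw [heq]; exact Or.inl hx
      exact_mod_cast this
    have hnd := hp.support_nodup
    have h1 : p.support.tail.toFinset ⊆ B := by
      intro x hx
      rw [List.mem_toFinset] at hx
      exact hsub x (List.mem_of_mem_tail hx)
    have h2 := Finset.card_le_card h1
    rw [List.toFinset_card_of_nodup hnd, List.length_tail, SimpleGraph.Walk.length_support] at h2
    simpa using h2
  · exact card_le_gam hcl (by omega) hTB

lemma sum_edge (ht : 3 ≤ t) 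
    (hall : ∀ B : Set V, IsBlock G B →
      (∃ v, B = {v} ∧ ∀ w, ¬ G.Adj v w) ∨ (G.IsClique B ∧ t ≤ B.ncard))
    {v y : V} (hvy : G.Adj v y) :
    ∑ T ∈ (KS G t univ).filter (fun T => v ∈ T ∧ y ∈ T), wt G t T = (t : ℚ) * ((t : ℚ) - 1) / 2 := by
  classical
  obtain ⟨B', hB', hvB', hyB'⟩ := exists_block hvy
  set B : Finset V := B'.toFinset with hBdef
  have hBB : (B : Set V) = B' := by rw [hBdef]; simp
  have hcl : G.IsClique (B : Set V) ∧ t ≤ B.card := by
    rcases hall B' hB' with ⟨u, hu, -⟩ | ⟨h1, h2⟩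
    · exfalso
      rw [hu] at hvB' hyB'
      exact hvy.ne (hvB'.trans hyB'.symm)
    · rw [hBB]
      refine ⟨h1, ?_⟩
      rw [← hBB, Set.ncard_coe_finset] at h2
      exact h2
  rw [← hBB] at hB' hvB' hyB'
  have hvB : v ∈ B := by exact_mod_cast hvB'
  have hyB : y ∈ B := by exact_mod_cast hyB'
  have hTB : ∀ T ∈ (KS G t univ).filter (fun T => v ∈ T ∧ y ∈ T), T ⊆ B := by
    intro T hT
    rw [Finset.mem_filter, mem_KS] at hT
    obtain ⟨⟨-, -, hT1⟩, hvT, hyT⟩ := hT
    have hnc := noCut_clique hT1 ⟨v, by exact_mod_cast hvT⟩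
    have hun := noCut_union hnc hB'.1 hvy.ne (by exact_mod_cast hvT) (by exact_mod_cast hvB)
      (by exact_mod_cast hyT) (by exact_mod_cast hyB)
    have heq := hB'.eq_of_subset hun Set.subset_union_right
    intro x hx
    have : x ∈ (B : Set V) := by rw [heq]; exact Or.inl (by exact_mod_cast hx)
    exact_mod_cast this
  have hwt : ∀ T ∈ (KS G t univ).filter (fun T => v ∈ T ∧ y ∈ T),
      wt G t T = (B.card.choose 2 : ℚ) / (B.card.choose t : ℚ) := by
    intro T hT
    have h1 := hTB T hT
    rw [Finset.mem_filter, mem_KS] at hT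
    unfold wt
    rw [gam_block ht hB' hcl.1 hcl.2 hvy.ne hvB hyB hT.2.1 hT.2.2 h1]
  have hcount : ((KS G t univ).filter (fun T => v ∈ T ∧ y ∈ T)).card =
      (B.card - 2).choose (t - 2) := by
    have h1 : ((B.erase v).erase y).card = B.card - 2 := by
      rw [Finset.card_erase_of_mem (Finset.mem_erase.2 ⟨hvy.ne.symm, hyB⟩),
        Finset.card_erase_of_mem hvB]
      omega
    rw [← h1, ← Finset.card_powersetCard]
    refine Finset.card_bij' (fun T _ => (T.erase v).erase y) (fun T _ => insert v (insert y T))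
      ?_ ?_ ?_ ?_
    · intro T hT
      have h2 := hTB T hT
      rw [Finset.mem_filter, mem_KS] at hT
      rw [Finset.mem_powersetCard]
      constructor
      · exact Finset.erase_subset_erase _ (Finset.erase_subset_erase _ h2)
      · rw [Finset.card_erase_of_mem (Finset.mem_erase.2 ⟨hvy.ne.symm, hT.2.2⟩),
          Finset.card_erase_of_mem hT.2.1, hT.1.2.1]
        omega
    · intro T hT
      rw [Finset.mem_powersetCard] at hT
      have hyT : y ∉ T := fun h => Finset.notMem_erase _ _ (hT.1 h)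
      have hvT : v ∉ insert y T := by
        rw [Finset.mem_insert]
        rintro (h | h)
        · exact hvy.ne h
        · exact Finset.notMem_erase _ _ (Finset.mem_of_mem_erase (hT.1 h))
      have hsub : insert v (insert y T) ⊆ B := by
        intro z hz
        rw [Finset.mem_insert, Finset.mem_insert] at hz
        rcases hz with rfl | rfl | hz
        · exact hvB
        · exact hyB
        · exact Finset.mem_of_mem_erase (Finset.mem_of_mem_erase (hT.1 hz))
      rw [Finset.mem_filter, mem_KS]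
      refine ⟨⟨Finset.subset_univ _, ?_, ?_⟩, by simp, by simp⟩
      · rw [Finset.card_insert_of_notMem hvT, Finset.card_insert_of_notMem hyT, hT.2]
        omega
      · exact hcl.1.subset (by exact_mod_cast hsub)
    · intro T hT
      rw [Finset.mem_filter, mem_KS] at hT
      have h2 : y ∈ T.erase v := Finset.mem_erase.2 ⟨hvy.ne.symm, hT.2.2⟩
      show insert v (insert y ((T.erase v).erase y)) = T
      rw [Finset.insert_erase h2, Finset.insert_erase hT.2.1]
    · intro T hT
      rw [Finset.mem_powersetCard] at hT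
      have hyT : y ∉ T := fun h => Finset.notMem_erase _ _ (hT.1 h)
      have hvT : v ∉ insert y T := by
        rw [Finset.mem_insert]
        rintro (h | h)
        · exact hvy.ne h
        · exact Finset.notMem_erase _ _ (Finset.mem_of_mem_erase (hT.1 h))
      show ((insert v (insert y T)).erase v).erase y = T
      rw [Finset.erase_insert hvT, Finset.erase_insert hyT]
  rw [Finset.sum_congr rfl hwt, Finset.sum_const, hcount, nsmul_eq_mul]
  have h1 := choose_t_identity (g := B.card) (t := t) (by omega) hcl.2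
  have hp : (0 : ℚ) < ((B.card.choose t : ℕ) : ℚ) := by exact_mod_cast Nat.choose_pos hcl.2
  rw [Nat.cast_choose_two]
  field_simp
  linear_combination -h1

theorem eq_of_blocks [DecidableRel G.Adj] (ht : 3 ≤ t)
    (hall : ∀ B : Set V, IsBlock G B →
      (∃ v, B = {v} ∧ ∀ w, ¬ G.Adj v w) ∨ (G.IsClique B ∧ t ≤ B.ncard)) :
    ∑ T ∈ KS G t univ, wt G t T = (G.edgeFinset.card : ℚ) := by
  have hv : ∀ v : V, ((t : ℚ) - 1) * ∑ T ∈ (KS G t univ).filter (fun T => v ∈ T), wt G t T =
      (nb G v).card * ((t : ℚ) * ((t : ℚ) - 1) / 2) := by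
    intro v
    have h1 : ∑ y ∈ nb G v, ∑ T ∈ (KS G t univ).filter (fun T => v ∈ T ∧ y ∈ T), wt G t T =
        (nb G v).card * ((t : ℚ) * ((t : ℚ) - 1) / 2) := by
      rw [Finset.sum_congr rfl (fun y hy => sum_edge ht hall (mem_nb.1 hy)), Finset.sum_const,
        nsmul_eq_mul]
    rw [← h1, Finset.mul_sum]
    have h2 : ∀ y ∈ nb G v, ∑ T ∈ (KS G t univ).filter (fun T => v ∈ T ∧ y ∈ T), wt G t T =
        ∑ T ∈ (KS G t univ).filter (fun T => v ∈ T), if y ∈ T then wt G t T else 0 := by
      intro y _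
      rw [← Finset.sum_filter, Finset.filter_filter]
    rw [Finset.sum_congr rfl h2, Finset.sum_comm]
    apply Finset.sum_congr rfl
    intro T hT
    rw [Finset.mem_filter] at hT
    have hTq := mem_KS.1 hT.1
    rw [← Finset.sum_filter, Finset.sum_const, nsmul_eq_mul]
    have h3 : (nb G v).filter (fun y => y ∈ T) = T.erase v := by
      ext z
      rw [Finset.mem_filter, mem_nb, Finset.mem_erase]
      constructor
      · rintro ⟨h4, h5⟩
        exact ⟨h4.ne.symm, h5⟩
      · rintro ⟨h4, h5⟩
        exact ⟨hTq.2.2 hT.2 h5 (Ne.symm h4), h5⟩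
    rw [h3, Finset.card_erase_of_mem hT.2, hTq.2.1]
    have h4 : ((t - 1 : ℕ) : ℚ) = (t : ℚ) - 1 := by
      push_cast [show 1 ≤ t by omega]; ring
    rw [h4]
  have h5 := double_count (G := G) (t := t) (wt G t)
  have h6 : ∑ v : V, ((t : ℚ) - 1) * ∑ T ∈ (KS G t univ).filter (fun T => v ∈ T), wt G t T =
      ∑ v : V, (nb G v).card * ((t : ℚ) * ((t : ℚ) - 1) / 2) :=
    Finset.sum_congr rfl (fun v _ => hv v)
  rw [← Finset.mul_sum, ← Finset.sum_mul, sum_nb_card, h5] at h6
  have ht1 : ((t : ℚ) - 1) * t ≠ 0 := by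
    have h7 : (3 : ℚ) ≤ t := by exact_mod_cast ht
    have h8 : (0 : ℚ) < (t : ℚ) - 1 := by linarith
    have h9 : (0 : ℚ) < t := by linarith
    positivity
  have h7 : (((t : ℚ) - 1) * t) * ∑ T ∈ KS G t univ, wt G t T =
      (((t : ℚ) - 1) * t) * (G.edgeFinset.card : ℚ) := by
    linear_combination h6
  exact mul_left_cancel₀ ht1 h7

end main2

/-- The edge version of the local circumference bound on clique counts. -/
theorem result (t : ℕ) (ht : 3 ≤ t) {V : Type*} [Fintype V] [DecidableEq V] (G : SimpleGraph V)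
    [DecidableRel G.Adj] :
    ∑ T ∈ G.cliqueFinset t, wt G t T ≤ (G.edgeFinset.card : ℚ) ∧
    (∑ T ∈ G.cliqueFinset t, wt G t T = (G.edgeFinset.card : ℚ) ↔
      ∀ B : Set V, IsBlock G B →
        (∃ v, B = {v} ∧ ∀ w, ¬ G.Adj v w) ∨ (G.IsClique B ∧ t ≤ B.ncard)) := by
  have hK : G.cliqueFinset t = KS G t univ := by
    ext T
    rw [SimpleGraph.mem_cliqueFinset_iff, mem_KS, SimpleGraph.isNClique_iff]
    constructor
    · rintro ⟨h1, h2⟩
      exact ⟨Finset.subset_univ _, h2, h1⟩
    · rintro ⟨-, h1, h2⟩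
      exact ⟨h2, h1⟩
  rw [hK]
  refine ⟨main_le ht, fun h => ?_, fun h => eq_of_blocks ht h⟩
  exact blocks_of_eq ht (main_eq ht h)

end Pool.Agent.Results.MP_18736b_co.LocalCircumference
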